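import Pool.Agent.H80.DIC.Treer

/-!
# The admissible families of labels of the last coordinate

`AdmL`: the target is the last coordinate, all the places but the last two are exact, and the
exponents of gradient, radius and precision have margins at the window. `AdmL.mar`: the margins are
uniform near the window.
-/

set_option autoImplicit false

namespace Pool.ALT

open Finset Real
open Pool.Agent.H49.Ent Pool.Agent.H32.Dense Pool.STK Pool.KA Pool.KSAT Pool.K2S Pool.PB Pool.S6C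
  Pool.GEN Pool.RCD Pool.LA91 Pool.OWN68 Pool.PKG Pool.CHT Pool.GRW

/-- **The admissible families**: target `c (n - 1)` over all the other coordinates, exact in
`c 0, …, c (n - 3)`; exponents `(e₀, ρ₀, π₀)` with strict inequalities at the window `g`. -/
def AdmL (n : ℕ) : AltJ → PropW n := fun i _ _ _ _ _ _ L _ _ _ g =>
  i.1.1 = n - 1 ∧ i.1.2.1 = n - 2 ∧ 0 ≤ i.2.1 ∧ i.2.2.1 ≤ 1 ∧ (i.2.1 : ℝ) + L (n - 1) g g < 1 ∧
    (i.2.2.2 : ℝ) < L (n - 1) g g ∧ L (n - 1) g g + L (n - 2) g g < 1 + i.2.2.2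

/-- **The margins near the window.** -/
theorem mar_lin {L N : ℝ → ℝ} {su sN e₀ π₀ g : ℝ} (hL : HasDerivAt L su g)
    (hN : HasDerivAt N sN g) (h0 : 0 < N g) (h0u : 0 < L g) (h1 : e₀ + N g < 1) (h2 : π₀ < N g)
    (h3 : N g + L g < 1 + π₀) : ∃ μ d : ℝ, 0 < μ ∧ 0 < d ∧ ∀ w : ℝ, |w - g| ≤ d →
      μ ≤ N w ∧ μ ≤ L w ∧ L w + μ ≤ 1 ∧ e₀ + N w + μ ≤ 1 ∧ π₀ + μ ≤ N w ∧
      N w + L w + μ ≤ 1 + π₀ := by
  obtain ⟨μ, hμ⟩ : ∃ μ : ℝ, μ = min (min (N g) (L g)) (min (1 - (e₀ + N g)) (min (N g - π₀)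
    (1 + π₀ - (N g + L g)))) / 4 := ⟨_, rfl⟩
  have hμ0 : 0 < μ := by
    rw [hμ]
    have : 0 < min (min (N g) (L g)) (min (1 - (e₀ + N g)) (min (N g - π₀)
        (1 + π₀ - (N g + L g)))) :=
      lt_min (lt_min h0 h0u) (lt_min (by linarith) (lt_min (by linarith) (by linarith)))
    linarith
  have hm : 4 * μ ≤ N g ∧ 4 * μ ≤ L g ∧ 4 * μ ≤ 1 - (e₀ + N g) ∧ 4 * μ ≤ N g - π₀ ∧
      4 * μ ≤ 1 + π₀ - (N g + L g) := by
    have e : 4 * μ = min (min (N g) (L g)) (min (1 - (e₀ + N g)) (min (N g - π₀)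
        (1 + π₀ - (N g + L g)))) := by rw [hμ]; ring
    rw [e]
    exact ⟨(min_le_left _ _).trans (min_le_left _ _), (min_le_left _ _).trans (min_le_right _ _),
      (min_le_right _ _).trans (min_le_left _ _),
      (min_le_right _ _).trans ((min_le_right _ _).trans (min_le_left _ _)),
      (min_le_right _ _).trans ((min_le_right _ _).trans (min_le_right _ _))⟩
  obtain ⟨m1, m2, m3, m4, m5⟩ := hm
  obtain ⟨d₁, hd₁, H1⟩ := Metric.continuousAt_iff.1 hL.continuousAt μ hμ0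
  obtain ⟨d₂, hd₂, H2⟩ := Metric.continuousAt_iff.1 hN.continuousAt μ hμ0
  refine ⟨μ, min d₁ d₂ / 2, hμ0, by positivity, fun w hw => ?_⟩
  have hm0 : 0 < min d₁ d₂ := lt_min hd₁ hd₂
  have a1 := @H1 w (by
    rw [Real.dist_eq]
    have := min_le_left d₁ d₂
    linarith)
  have a2 := @H2 w (by
    rw [Real.dist_eq]
    have := min_le_right d₁ d₂
    linarith)
  rw [Real.dist_eq, abs_lt] at a1 a2
  obtain ⟨a1, a1'⟩ := a1
  obtain ⟨a2, a2'⟩ := a2
  exact ⟨by linarith, by linarith, by linarith, by linarith, by linarith, by linarith⟩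

end Pool.ALT
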