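import Pool.Agent.H92.ALT.Sl1
import Pool.Agent.H60.ALT.Nwc
import Pool.Agent.H18.PN.Prb

/-!
# The slope hypothesis from the natural labels of a blind family

`nzl_pd`: a natural label has the slope of its label. `blb_nz`: `BlB` of the family of natural labels.
`slh_nz`: `SlH` for a family of natural labels.
-/

set_option autoImplicit false

namespace Pool.ALT

open Finset Real MvPolynomial
open Pool.Agent.H49.Ent Pool.Agent.H32.Dense Pool.STK Pool.KA Pool.KSAT Pool.K2S Pool.PB Pool.S6C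
  Pool.GEN Pool.RCD Pool.LA91 Pool.OWN68
open Pool.CHT Pool.CHX Pool.ISO Pool.D2R Pool.D2G30 Pool.V1E Pool.CR99
open Pool.UNJ (ceI)
open Pool.BFL (Pb)
open Pool.GRD (LbP)
open Pool.PN18 (Fm2)

variable {m : ℕ}

/-- **A natural label has the slope of its label.** -/
theorem nzl_pd {c : ℕ → Fin m} {r₀ : ℕ} {κ : Fin m} {K K₁ Ku : ℕ}
    (hinj : Set.InjOn c (Set.Iio (r₀ + 1)))
    {w v p₁ p₂ e u p : ℝ} {J : ℕ} {F : Fam m J} {A : F.Ω → Prop} {V V₀ V₁ V₂ : Type}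
    {z : PtT F → V} {z' : LnT F → V} {G : V → MvPolynomial (Option (Fin m)) ℝ}
    {z₀' : LnT F → V₀} {G₀ : V₀ → MvPolynomial (Option (Fin m)) ℝ} {P₁ : ℕ} {z₁ : PtT F → V₁}
    {z₁' : LnT F → V₁} {G₁ : V₁ → MvPolynomial (Option (Fin m)) ℝ} {P₂ : ℕ} {z₂ : PtT F → V₂}
    {z₂' : LnT F → V₂} {H : V₂ → MvPolynomial (Option (Fin m)) ℝ}
    {f : V → V₀ × (V₁ × V₂)}
    (h : NzL c r₀ κ K K₁ Ku w v p₁ p₂ e u p F A z z' G z₀' G₀ P₁ z₁ z₁' G₁ P₂ z₂ z₂' H f)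
    (hG₀ : ∀ y, DpI ((range (r₀ + 1)).image c) (G₀ y)) (hwv : w ≤ v) (hv1 : v ≤ 1)
    (ω : F.Ω) (b : Option (Fin m) → ℝ) :
    eval b (pderiv (some (c r₀)) (G (z' (slam F ⌊v * J⌋₊ ω)))) =
      eval b (pderiv (some (c r₀)) (G₀ (z₀' (slam F ⌊w * J⌋₊ ω)))) := by
  obtain ⟨f1, f2⟩ := floorw hwv hv1 J
  rw [h.pol, h.cod, wz_slam z₀' f1 f2]
  unfold nzG
  simp only
  rw [map_add, map_add, dpI_pd hinj (sbu_dep (DpI.sub (h.l1.dep _) (hG₀ _)) (h.l2.dep _)), add_zero]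

/-- **`BlB` of the family of natural labels.** -/
theorem blb_nz {S : PCl m} {Ψ : Fml m} {c : ℕ → Fin m} {r₀ : ℕ} {κ : Fin m} {K K₁ Ku K₁' Ku' : ℕ}
    (hinj : Set.InjOn c (Set.Iio (r₀ + 1)))
    {w v v' p₁ p₂ e u p p₁' p₂' x₀ : ℝ} (hwv : w ≤ v) (hv1 : v ≤ 1)
    (hΨd : ∀ (J : ℕ) (F : Fam m J) (A : F.Ω → Prop) (V : Type) (z : PtT F → V)
      (z' : LnT F → V) (G : V → MvPolynomial (Option (Fin m)) ℝ), Ψ J F A V z z' G →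
      ∀ y, DpI ((range (r₀ + 1)).image c) (G y))
    (h : BlB S c r₀ κ w v' K₁' Ku' p₁' p₂' x₀ Ψ) :
    BlB S c r₀ κ v v' K₁' Ku' p₁' p₂' x₀ (NzF Ψ c r₀ κ K K₁ Ku w v p₁ p₂ e u p) := by
  intro η χ hη hχ
  refine Bas.mono 0 (h η χ hη hχ) ?_
  rintro J - F A h0 V z z' G ⟨V₀, V₁, V₂, z₀, z₀', G₀, Q₁, z₁, z₁', G₁, Q₂, z₂, z₂', H, f, g1, g2⟩
    P₁ W₁ y₁ y₁' N₁ b1 b2 P₂ W₂ y₂ y₂' N₂ b3 b4
  have h1 := h0 V₀ z₀ z₀' G₀ g1 P₁ W₁ y₁ y₁' N₁ b1 b2 P₂ W₂ y₂ y₂' N₂ b3 b4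
  have e1 : ∀ ω, eval (bt F ω) (pderiv (some (c r₀)) (N₁ (y₁' (slam F ⌊v' * J⌋₊ ω)) -
      G (z' (slam F ⌊v * J⌋₊ ω)))) = eval (bt F ω) (pderiv (some (c r₀))
      (N₁ (y₁' (slam F ⌊v' * J⌋₊ ω)) - G₀ (z₀' (slam F ⌊w * J⌋₊ ω)))) := fun ω => by
    rw [map_sub, map_sub, map_sub, map_sub, nzl_pd hinj g2 (hΨd J F A V₀ z₀ z₀' G₀ g1) hwv hv1]
  simp only [e1]
  exact h1

/-- Smaller degrees of the charts. -/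
theorem BlB.deg {S : PCl m} {Ψ : Fml m} {c : ℕ → Fin m} {r₀ : ℕ} {κ : Fin m} {K₁ Ku K₁' Ku' : ℕ}
    {w v p₁ p₂ x₀ : ℝ} (hK : K₁' ≤ K₁) (hK' : Ku' ≤ Ku)
    (h : BlB S c r₀ κ w v K₁ Ku p₁ p₂ x₀ Ψ) : BlB S c r₀ κ w v K₁' Ku' p₁ p₂ x₀ Ψ := by
  intro η χ hη hχ
  refine Bas.mono 0 (h η χ hη hχ) ?_
  rintro J - F A h0 V z z' G g P₁ W₁ y₁ y₁' N₁ b1 b2 P₂ W₂ y₂ y₂' N₂ b3 b4
  exact h0 V z z' G g P₁ W₁ y₁ y₁' N₁ ⟨fun v => (b1.deg v).trans hK, b1.dep, b1.cls, b1.pos⟩ b2 P₂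
    W₂ y₂ y₂' N₂ ⟨fun v => (b3.deg v).trans hK', b3.dep, b3.cls, b3.pos⟩ b4

/-- The second labels of a family of pairs of labels. -/
def Fm2.lab (Θ : Fm2 m) : Fml m := fun J F A V z z' G =>
  ∃ (C : Type) (G₁ : V → MvPolynomial (Option (Fin m)) ℝ) (cc : LnT F → C), Θ J F A V C z z' G₁ G cc

/-- **The polynomial `P` is the second label of the family** `Θ`, closed at the window `w`. -/
def XiF (Θ : Fm2 m) (w : ℝ) : XiN m := fun J F B _ _ _ _ _ Cp =>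
  ∃ (V C : Type) (z : PtT F → V) (z' : LnT F → V) (G₁ G₂ : V → MvPolynomial (Option (Fin m)) ℝ)
    (cc : LnT F → C), Θ J F B V C z z' G₁ G₂ cc ∧
    ∀ ω, B ω → Cp (ptr F J ω) = G₂ (z' (slam F ⌊w * J⌋₊ ω))

/-- **The slope hypothesis** from a family of labels closed at the window `w ≤ o 0`. -/
theorem slh_nz {S : PCl m} (hpos : ∀ (τ : ℝ) (J : ℕ) (F : Fam m J)
      (A : F.Ω → Prop), S.St τ J F A → 0 < Pe F.p A) {c : ℕ → Fin m} {r D Dw Dr N N₂ : ℕ}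
    {R : ℕ → Prop} {C a Eb ε₀ η₀ χ mb : ℝ} {Pt : ℝ → ℝ → ℝ} {o : ℕ → ℝ} {lv be : ℕ → ℕ → ℝ}
    (hc : Set.InjOn c (Set.Iio (r + 2))) (hN1 : 1 ≤ N) (hN : 3 ≤ N₂) {Kd : ℕ} {w : ℝ}
    (hKw : Kd ≤ Dw) (hDr : D ≤ Dr) (hKr : Kd ≤ Dr) (hwo : w ≤ o 0) (h01 : o 0 ≤ o 1)
    (h03 : o 0 ≤ o 3) (ho1 : o 1 ≤ 1) (ho3 : o 3 ≤ 1) (hη₀ : 0 < η₀)
    (hmb : o 3 - o 0 ≤ mb) (ho0 : 0 ≤ o 0) (hoa : o 1 ≤ a) (hχ : 0 ≤ χ) (hε₀ : 0 ≤ ε₀)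
    (hl0 : 0 ≤ lv 0 (r + 1)) (hl0r : 0 ≤ lv 0 r) {Θ : Fm2 m}
    (hΘd : ∀ (J : ℕ) (F : Fam m J) (A : F.Ω → Prop) (V C : Type) (z : PtT F → V) (z' : LnT F → V)
      (G₁ G₂ : V → MvPolynomial (Option (Fin m)) ℝ) (cc : LnT F → C), Θ J F A V C z z' G₁ G₂ cc →
      (∀ y, (G₂ y).totalDegree ≤ Kd) ∧ (∀ y, DpI ((range (r + 1)).image c) (G₂ y)) ∧
      ∀ ω, A ω → z (ptr F J ω) = z' (slam F ⌊w * J⌋₊ ω))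
    (hΘs : ∀ (J : ℕ) (F : Fam m J) (A B : F.Ω → Prop) (V C : Type) (z : PtT F → V)
      (z' : LnT F → V) (G₁ G₂ : V → MvPolynomial (Option (Fin m)) ℝ) (cc : LnT F → C), Sub B A →
      Θ J F A V C z z' G₁ G₂ cc → Θ J F B V C z z' G₁ G₂ cc)
    {p q x : ℕ → ℝ}
    (hB0 : BlB S c r (c (r + 1)) w (o 0) D D (p 0) (q 0) (x 0) (Fm2.lab Θ))
    (hB1 : BlB S c r (c (r + 1)) w (o 1) D D (p 1) (q 1) (x 1) (Fm2.lab Θ))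
    (hB3 : BlB S c r (c (r + 1)) w (o 3) D D (p 3) (q 3) (x 3) (Fm2.lab Θ))
    (hp : ∀ k, p k < lv k (r + 1) - η₀) (hq : ∀ k, q k < lv k r - η₀)
    (hx0 : x 0 + η₀ < lv 0 r - lv 0 (r + 1) + χ)
    (hx3 : x 3 + 2 * η₀ < lv 3 r - lv 0 (r + 1) - mb + χ)
    (hx1 : x 1 < lv 0 r - lv 0 (r + 1) - (mb - (o 3 - o 0)) + χ)
    {qr gm : ℝ} (hqr0 : 0 ≤ qr) (hqr1 : qr + C * η₀ ≤ Pt a (o 0) - 2 * (C * η₀))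
    (hqr2 : qr + C * η₀ < lv 1 (r + 1) + (a - o 1) - η₀)
    (hgR : R r → lv 1 r + (a - o 1) ≤ gm) (hgN : ¬ R r → be 1 r ≤ gm)
    (hrow : C * η₀ + gm - qr < lv 0 r - lv 0 (r + 1) - (mb - (o 3 - o 0)) + χ)
    {K₄ : ℝ} (hK₄ : 1 ≤ K₄) (hex : Bas S (fun J F A => ∃ A₁ : F.Ω → Prop, Sub A₁ A ∧
      Pe F.p A ≤ K₄ * Pe F.p A₁ ∧ ∃ (V C : Type) (z : PtT F → V) (z' : LnT F → V)
        (G₁ G₂ : V → MvPolynomial (Option (Fin m)) ℝ) (cc : LnT F → C),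
        Θ J F A₁ V C z z' G₁ G₂ cc)) :
    SlH S c r D Dw Dr N N₂ R C a Eb ε₀ η₀ χ mb Pt o lv be (1 / (4 * K₄)) (8 * K₄) (XiF Θ w) := by
  have hK0 : 0 < K₄ := by linarith
  have hnw := nwc_B (Ψ := Fm2.lab Θ) (Eb := Eb) (Dr := Dr) (be := be) (κ := 1 / 4) (R := R) hpos hc
    hN1 hN hKw hDr hKr hwo h01 h03 ho1 ho3 hη₀ le_rfl hmb ho0 hoa hχ hε₀ hl0 hl0r
    (fun J F A V z z' G hG => by
      obtain ⟨C, G₁, cc, hG⟩ := hG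
      exact hΘd J F A V C z z' G₁ G cc hG) hB0 hB1 hB3 hp hq hx0 hx3 hx1 hqr0 hqr1 hqr2 hgR hgN hrow
  refine Bas.mono 0 (hex.and (Pool.V1E.bas_big hnw K₄)) ?_
  rintro J - F B ⟨⟨A₁, hA₁, hPA, V, C', z, z', G₁, G₂, cc, hΘ⟩, w2⟩ b zz gc gT g₀ Gc H T TH Gt Ht W
  have W' := W.res (κ₁ := 1 / K₄) (κ₂ := 1 / 4) hA₁ (by
    rw [one_div_mul_eq_div, div_le_iff₀ hK0, mul_comm]
    exact hPA) (by norm_num) (by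
    rw [← one_div_mul_one_div])
  obtain ⟨B₂, hB₂, hPB, hN⟩ := w2 A₁ hA₁ hPA V z z' G₂ ⟨C', G₁, cc, hΘ⟩ b zz gc gT g₀ Gc H T TH Gt
    Ht W'
  refine ⟨B₂, _, _, fun ω hω => hA₁ ω (hB₂ ω hω), ?_, hN, V, C', z, z', G₁, G₂, cc,
    hΘs J F A₁ B₂ V C' z z' G₁ G₂ cc hB₂ hΘ, fun ω hω => ?_⟩
  · calc Pe F.p B ≤ K₄ * Pe F.p A₁ := hPA
      _ ≤ K₄ * (8 * Pe F.p B₂) := mul_le_mul_of_nonneg_left hPB hK0.le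
      _ = 8 * K₄ * Pe F.p B₂ := by ring
  · show G₂ (z (ptr F J ω)) = _
    rw [(hΘd J F A₁ V C' z z' G₁ G₂ cc hΘ).2.2 ω (hB₂ ω hω)]

end Pool.ALT
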