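import Pool.Agent.H92.ALT.Sl1

/-!
# The slopes of the counted labels at the later windows

`bbw_lin`: `BlB` at a window `v` later than the window of the family, from `AlW` and linear levels.
-/

set_option autoImplicit false

namespace Pool.ALT

open Finset Real MvPolynomial
open Pool.Agent.H49.Ent Pool.Agent.H32.Dense Pool.STK Pool.KA Pool.KSAT Pool.K2S Pool.PB Pool.S6C
  Pool.GEN Pool.RCD Pool.LA91 Pool.OWN68
open Pool.UNJ (ceI)
open Pool.BFL (Pb)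
open Pool.GRD (LbP)

/-- A larger bound of the slopes. -/
theorem BlB.mono {m : ℕ} {S : PCl m} {Ψ : Fml m} {c : ℕ → Fin m} {r₀ : ℕ} {κ : Fin m} {K₁ Ku : ℕ}
    {w v p₁ p₂ x₀ x₁ : ℝ} (hx : x₀ ≤ x₁) (h : BlB S c r₀ κ w v K₁ Ku p₁ p₂ x₀ Ψ) :
    BlB S c r₀ κ w v K₁ Ku p₁ p₂ x₁ Ψ := by
  intro η χ hη hχ
  refine Bas.mono 0 (h η χ hη hχ) ?_
  rintro J - F A h0 V z z' G g P₁ W₁ y₁ y₁' N₁ b1 b2 P₂ W₂ y₂ y₂' N₂ b3 b4
  refine le_trans ?_ (h0 V z z' G g P₁ W₁ y₁ y₁' N₁ b1 b2 P₂ W₂ y₂ y₂' N₂ b3 b4)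
  refine Pool.LIV.Pb_mono25 ?_ fun ω _ hω => ?_
  · intro ω
    have := F.isLaw.nonneg ω
    unfold Pool.Agent.H49.Ent.cond
    have h5 : 0 ≤ law F.p A True := Pe_nonneg F.isLaw A
    split_ifs
    · exact div_nonneg this h5
    · exact le_rfl
  · have h2 : (2 : ℝ) ^ (x₀ * J) ≤ 2 ^ (x₁ * J) := Real.rpow_le_rpow_of_exponent_le (by norm_num)
      (mul_le_mul_of_nonneg_right hx (Nat.cast_nonneg J))
    exact h2.trans_lt hω

/-- The gap of a block, with errors. -/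
theorem gap_nu {b h L φ y τ E Y D : ℝ} (hh : 0 < h) (_hh1 : h ≤ 1) (hb : 0 < b) (hL : 1 / 2 < L)
    (hL1 : L < 1) (hφ : φ ≤ (1 - h) * b * L) (hy : 0 ≤ y) (hτ : 0 ≤ τ)
    (hY : 4 * Y ≤ h * (b * y)) (hbτ : b * τ ≤ Y / 4) (hE : E ≤ Y / 4) (hY0 : 0 < Y)
    (hD : b * y - Y / 4 ≤ D) : φ * (y + τ) + E < D * L := by
  have h1 : φ * (y + τ) ≤ (1 - h) * b * L * (y + τ) :=
    mul_le_mul_of_nonneg_right hφ (by linarith)
  have e1 : (1 - h) * b * L * (y + τ) = L * ((1 - h) * (b * y) + (1 - h) * (b * τ)) := by ring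
  rw [e1] at h1
  have hbτ0 : 0 ≤ b * τ := mul_nonneg hb.le hτ
  have h2 : (1 - h) * (b * τ) ≤ Y / 4 := by
    have := mul_le_mul_of_nonneg_right (show 1 - h ≤ 1 by linarith) hbτ0
    linarith
  have h4 : (1 - h) * (b * y) + (1 - h) * (b * τ) + 7 / 2 * Y ≤ D := by
    have e2 : (1 - h) * (b * y) = b * y - h * (b * y) := by ring
    rw [e2]
    linarith
  have h5 : L * ((1 - h) * (b * y) + (1 - h) * (b * τ) + 7 / 2 * Y) ≤ L * D :=
    mul_le_mul_of_nonneg_left h4 (by linarith)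
  have h6 : 1 / 2 * Y < L * Y := mul_lt_mul_of_pos_right hL hY0
  have e3 : L * ((1 - h) * (b * y) + (1 - h) * (b * τ) + 7 / 2 * Y) =
      L * ((1 - h) * (b * y) + (1 - h) * (b * τ)) + 7 / 2 * (L * Y) := by ring
  rw [e3] at h5
  have e4 : D * L = L * D := mul_comm _ _
  rw [e4]
  linarith

/-- **The slopes of the counted labels at a window** `v`, with linear levels. -/
theorem bbw_lin (r₀ D : ℕ) {b h X ℓ M : ℝ} (hb : 0 < b) (hh : 0 < h) (hh1 : h ≤ 1)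
    (hX : 0 < X) (hℓ : 0 < ℓ) (hℓX : 4 * (b * ℓ) ≤ X) (hM : 0 < M) : ∃ h₁ ε e₁ : ℝ, 0 < h₁ ∧
    0 < ε ∧ 0 < e₁ ∧ ∀ η : ℝ, 0 < η → η ≤ h₁ →
    ∀ {m : ℕ} {S : PCl m} {C₀ : ℝ} (_ : TmC S C₀)
    (_ : ∀ (τ : ℝ) (J : ℕ) (F : Fam m J) (A : F.Ω → Prop), S.St τ J F A → 0 < Pe F.p A)
    {c : ℕ → Fin m} {κ : Fin m} (_ : Set.InjOn c (Set.Iio (r₀ + 1)))
    {e₀ ρ₀ π₀ : ℝ} {s : ℝ → ℝ} {x φ e : ℝ} {k Kf : ℕ} (_ : Kf ≤ D)
    (_ : AltAt S ((range (r₀ + 1)).image c) ((range r₀).image c) κ Kf e₀ ρ₀ π₀ s x φ e k)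
    {K q t s₀ v pu E Eu u : ℝ} (_ : AlW S c r₀ κ D v (s v) pu E Eu u) (_ : 0 < e) (_ : e ≤ e₁)
    (_ : φ ≤ (1 - h) * b * Real.log 2) (_ : 0 < q)
    (_ : x - (1 / 2) ^ k ≤ t - (K + 1) * q) (_ : t + (K + 1) * q ≤ x + (1 / 2) ^ k)
    (_ : (1 / 2) ^ k ≤ M * q) (_ : 0 ≤ t - (K + 1) * q) (_ : t + (K + 1) * q ≤ 1)
    (_ : ∀ y : ℝ, |y - t| ≤ (K + 1) * q → |s y - s₀ - b * (y - t)| ≤ ε * q)
    (_ : ∀ y y' : ℝ, |y - t| ≤ (K + 1) * q → |y' - t| ≤ (K + 1) * q → y ≤ y' → s y ≤ s y')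
    {w o₁ : ℚ} (_ : t - (K + 1) * q ≤ w) (_ : w + ℓ * q ≤ v) (_ : t - K * q ≤ v) (_ : v + ℓ * q ≤ o₁)
    (_ : (o₁ : ℝ) ≤ t + (K + 1) * q) (_ : ρ₀ ≤ 1) (_ : 0 ≤ e₀)
    (_ : e₀ + s v < 1) (_ : E + s v + X * q ≤ 1) (_ : Eu + pu + X * q ≤ 1) (_ : u + X * q ≤ 1)
    (_ : X * q ≤ s v) (_ : X * q ≤ pu) (_ : π₀ + X * q ≤ s v) (_ : s v + pu + X * q ≤ 1 + π₀),
    BlB S c r₀ κ w v D D (s v - 2 * (η * q)) (pu - 2 * (η * q)) (pu - s v + X * q)
      (AlF ((range (r₀ + 1)).image c) ((range r₀).image c) κ Kf e₀ ρ₀ π₀ w (s w) (s o₁)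
        (φ * (o₁ - w) + 2 * e * (1 / 2) ^ k)) := by
  obtain ⟨C, hC, hbb⟩ := bbw_win r₀ D D D le_rfl
  have hC0 : 0 < C := by linarith
  have hhb : 0 < h * b * ℓ := by positivity
  refine ⟨min (h * b * ℓ / 512) (X / (16 * C)), h * b * ℓ / 256, h * b * ℓ / (1024 * M),
    lt_min (by positivity) (by positivity), by positivity, by positivity, fun η hη hηh => ?_⟩
  have hη1 : 512 * η ≤ h * b * ℓ := by
    have := hηh.trans (min_le_left _ _)
    linarith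
  have hη2 : 16 * (C * η) ≤ X := by
    have := hηh.trans (min_le_right _ _)
    rw [le_div_iff₀ (by positivity)] at this
    linarith
  intro m S C₀ htm hpos c κ hinj e₀ ρ₀ π₀ s x φ e k Kf hKf hat K q t s₀ v pu E Eu u hv he0 he1 hφ hq hk0
    hk1 hkM ht0 ht1 hlin hmono w o₁ hw hwv hvK hvo ho₁ hρ₀ he₀ m1 m2 m3 m4 m5 m6 m7 m8
  have hL : 1 / 2 < Real.log 2 := by
    have := Real.log_two_gt_d9
    linarith
  have hL1 : Real.log 2 < 1 := by
    have := Real.log_two_lt_d9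
    linarith
  obtain ⟨Y, hY⟩ : ∃ Y : ℝ, Y = h * b * ℓ / 8 * q := ⟨_, rfl⟩
  obtain ⟨ηq, hηq⟩ : ∃ ηq : ℝ, ηq = η * q := ⟨_, rfl⟩
  obtain ⟨ℓq, hℓq⟩ : ∃ ℓq : ℝ, ℓq = ℓ * q := ⟨_, rfl⟩
  have hY0 : 0 < Y := by rw [hY]; positivity
  have hηq0 : 0 < ηq := by rw [hηq]; positivity
  have hℓq0 : 0 < ℓq := by rw [hℓq]; positivity
  have hE : 4 * e * (1 / 2) ^ k ≤ Y / 32 := by
    have k1 : 4 * e * (1 / 2 : ℝ) ^ k ≤ 4 * (h * b * ℓ / (1024 * M)) * (M * q) := by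
      refine mul_le_mul (by linarith) hkM (by positivity) (by positivity)
    have k2 : 4 * (h * b * ℓ / (1024 * M)) * (M * q) = Y / 32 := by
      rw [hY]
      field_simp
      norm_num
    linarith
  have hηY : 64 * ηq ≤ Y := by
    rw [hηq, hY]
    have := mul_le_mul_of_nonneg_right hη1 hq.le
    linarith
  have hεY : h * b * ℓ / 256 * q = Y / 32 := by
    rw [hY]
    ring
  have hbℓY : Y ≤ b * ℓq / 8 := by
    rw [hY, hℓq]
    have := mul_le_mul_of_nonneg_right hh1 (show 0 ≤ b * ℓ * q / 8 by positivity)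
    linarith
  have hCη : 16 * (C * ηq) ≤ X * q := by
    rw [hηq]
    have := mul_le_mul_of_nonneg_right hη2 hq.le
    linarith
  have hbℓ : 4 * (b * ℓq) ≤ X * q := by
    rw [hℓq]
    have := mul_le_mul_of_nonneg_right hℓX hq.le
    linarith
  have hηC : ηq ≤ C * ηq := le_mul_of_one_le_left hηq0.le hC
  obtain ⟨Kq, hKq⟩ : ∃ Kq : ℝ, Kq = K * q := ⟨_, rfl⟩
  have hKq1 : (K + 1) * q = Kq + q := by rw [hKq]; ring
  rw [hKq1] at hk0 hk1 ht0 ht1 hlin hmono hw ho₁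
  rw [← hKq] at hvK
  rw [← hℓq] at hwv hvo
  rw [hεY] at hlin
  rw [← hηq]
  have lin : ∀ y : ℝ, -(Kq + q) ≤ y - t → y - t ≤ Kq + q →
      s₀ + b * (y - t) - Y / 32 ≤ s y ∧ s y ≤ s₀ + b * (y - t) + Y / 32 := by
    intro y y1 y2
    obtain ⟨k1, k2⟩ := abs_le.1 (hlin y (abs_le.2 ⟨y1, y2⟩))
    constructor <;> linarith
  have mon : ∀ y y' : ℝ, -(Kq + q) ≤ y - t → y ≤ y' → y' - t ≤ Kq + q → s y ≤ s y' := by
    intro y y' y1 y2 y3
    exact hmono y y' (abs_le.2 ⟨y1, by linarith⟩) (abs_le.2 ⟨by linarith, y3⟩) y2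
  obtain ⟨τ, hτ⟩ : ∃ τ : ℝ, τ = min ℓq (Y / (4 * b)) := ⟨_, rfl⟩
  have hτ0 : 0 < τ := by
    rw [hτ]
    exact lt_min hℓq0 (by positivity)
  have hτℓ : τ ≤ ℓq := by
    rw [hτ]
    exact min_le_left _ _
  have hbτ : b * τ ≤ Y / 4 := by
    have h1 : τ ≤ Y / (4 * b) := by
      rw [hτ]
      exact min_le_right _ _
    rw [le_div_iff₀ (by positivity)] at h1
    linarith
  obtain ⟨o, o1, o2⟩ := exists_rat_btwn (show v - ℓq < v - ℓq / 2 by linarith)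
  obtain ⟨o', o1', o2'⟩ := exists_rat_btwn (show v < v + τ by linarith)
  have ratle : ∀ {r r' : ℚ}, (r : ℝ) ≤ r' → r ≤ r' := fun h => by exact_mod_cast h
  have bm : ∀ {y y' : ℝ}, y ≤ y' → b * y ≤ b * y' := fun h => mul_le_mul_of_nonneg_left h hb.le
  obtain ⟨lv1, lv2⟩ := lin v (by linarith) (by linarith)
  obtain ⟨lo1, lo2⟩ := lin o (by linarith) (by linarith)
  have bv : b * (v - t) = b * (v - o) + b * (o - t) := by ring
  have bo1 : b * ℓq / 2 ≤ b * (v - o) := by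
    have := bm (show ℓq / 2 ≤ v - o by linarith)
    linarith
  have bo2 : b * (v - o) ≤ b * ℓq := bm (by linarith)
  have hsvo' : s v ≤ s o' := mon v o' (by linarith) o1'.le (by linarith)
  have hw0 : (0 : ℝ) ≤ w := by linarith
  have hgap : φ * (o' - o) + 4 * e * (1 / 2) ^ k + 7 * ηq < (s v - s o) * Real.log 2 := by
    have k4 : φ * ((o' : ℝ) - o) ≤ φ * ((v - o) + τ) ∨ φ < 0 := by
      rcases le_or_gt 0 φ with h0 | h0
      · exact Or.inl (mul_le_mul_of_nonneg_left (by linarith) h0)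
      · exact Or.inr h0
    rcases k4 with k4 | k4
    · have k5 := gap_nu (E := 4 * e * (1 / 2) ^ k + 7 * ηq) (D := s v - s o) (y := v - o) (τ := τ)
        (Y := Y) hh hh1 hb hL hL1 hφ (by linarith) hτ0.le (by
          have k6 : h * (b * ℓq / 2) ≤ h * (b * (v - o)) := mul_le_mul_of_nonneg_left bo1 hh.le
          have k7 : h * (b * ℓq / 2) = 4 * Y := by
            rw [hY, hℓq]
            ring
          linarith) hbτ (by linarith) hY0 (by linarith)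
      linarith
    · have k5 : φ * ((o' : ℝ) - o) ≤ 0 := mul_nonpos_of_nonpos_of_nonneg k4.le (by linarith)
      have k6 : 3 * Y ≤ s v - s o := by linarith
      have k7 : 3 * Y * Real.log 2 ≤ (s v - s o) * Real.log 2 :=
        mul_le_mul_of_nonneg_right k6 (by linarith)
      have k8 : 3 * Y * (1 / 2) ≤ 3 * Y * Real.log 2 := mul_le_mul_of_nonneg_left hL.le (by linarith)
      linarith
  have hvE0 := hv.E0
  have hvEu0 := hv.Eu0
  have h1 := hbb htm hpos hinj hv hKf hat (w := w) (o := o) (o' := o') (o₁ := o₁) (by linarith)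
    (ratle (by linarith)) (ratle (by linarith)) (ratle (by linarith)) (by linarith) (by linarith)
    (mon w o (by linarith) (by linarith) (by linarith))
    (mon o o' (by linarith) (by linarith) (by linarith))
    (mon o' o₁ (by linarith) (by linarith) (by linarith)) hw0 (by linarith) hρ₀ he₀ hηq0
    (by linarith) (by linarith) hsvo' (by linarith) (by linarith) (by linarith) (by linarith)
    (by linarith) (by linarith) (by linarith) (by linarith) hgap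
  exact h1.mono (by linarith)

end Pool.ALT
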