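import Pool.Agent.H60.ALT.Alo
import Pool.Agent.H92.ALT.Sl5
import Pool.Agent.H92.ALT.Adm
import Pool.Agent.H73.D2.Tnh
import Pool.Agent.H73.D2.Tmx

/-!
# The velocity over the natural labels of a family of small rate

`VbY`: the second half of the joint: the velocity of `N - P` is dead, `P` a natural label of the
window `t - y₁ q` (`VfNU`). `rec_pos`: the levels are positive.
-/

set_option autoImplicit false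

namespace Pool.ALT

open Finset Real MvPolynomial
open Pool.Agent.H49.Ent Pool.Agent.H32.Dense Pool.STK Pool.KA Pool.KSAT Pool.K2S Pool.PB Pool.S6C
  Pool.GEN Pool.RCD Pool.LA91 Pool.OWN68 Pool.PKG
open Pool.CHT Pool.CHX Pool.ISO Pool.D2R Pool.D2G30 Pool.V1E Pool.CR99 Pool.GRW
open Pool.UNJ (ceI)
open Pool.GRD (LbP)
open Pool.PN18 (Fm2)

/-- **The velocity over the natural labels of a family of small rate** `(1 - hb) b log 2`, `b` the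
slope of `N = c (r + 1)`: in a subclass, for a family `Θ` of pairs of labels whose second label is a
natural label of the window `t - y₁ q`. The record has the windows `Va`, and `AlO` is the output of
`alo_rec` for it. -/
def VbY (r : ℕ) (y a h hb : ℝ) (Sl : ℕ → ℝ) (κ : ℕ → Kg) {ι : Type} (Q : PropG (r + 2) ι) : Prop :=
  ∀ al : ℝ, 0 < al → ∀ K₀ : ℝ, 0 < K₀ → ∀ S₀ : ℕ, 1 ≤ S₀ →
  ∃ (Kr : ℝ) (Nr : ℕ) (Ar Vr : ℕ → ℝ), 1 ≤ Kr ∧ (∀ k < Nr, -Kr ≤ Vr k ∧ Vr k ≤ Ar k ∧ Ar k ≤ Kr) ∧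
  ∀ S₂ : ℕ, S₀ ≤ S₂ → ∀ D : ℕ, 1 ≤ D → ∃ D₁ : ℕ, ∀ Db : ℕ, D ≤ Db → D₁ ≤ Db → ∃ Dr₀ : ℕ,
  ∀ Dr : ℕ, Dr₀ ≤ Dr → ∀ C : ℝ, 1 ≤ C → ∃ Dw₀ : ℕ, ∀ Dw : ℕ, Dw₀ ≤ Dw →
  ∀ δ X₀ : ℝ, 0 < δ → δ ≤ 1 → 0 < X₀ →
  ∃ y₁ lam rr gg dt ℓ₀ kf₀ X₁ : ℝ, 0 < y₁ ∧ 0 < lam ∧ lam ≤ rr ∧ 0 < gg ∧ 0 < dt ∧ 0 < ℓ₀ ∧
  0 < X₁ ∧ lam + gg ≤ Sl (r + 1) * y₁ ∧ ∀ ℓ X kf : ℝ, 0 < ℓ → ℓ ≤ ℓ₀ → 0 < X → X ≤ X₁ → kf₀ ≤ kf →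
  ∃ h₁ : ℝ, 0 < h₁ ∧ ∀ hh k₁ : ℝ, 0 < hh → hh ≤ h₁ → kf + 8 ≤ k₁ → a + 1 ≤ k₁ →
  ∃ (K₁ : ℝ) (Nv : ℕ) (Vv : ℕ → ℝ) (ns : ℕ) (vs : ℕ → ℝ), (∀ j < Nv, -K₁ ≤ Vv j ∧ Vv j ≤ K₁) ∧
  (∀ j < ns, -K₁ ≤ vs j ∧ vs j ≤ a - 1 / 2) ∧ ∀ K' : ℝ, K₁ ≤ K' →
  ∃ ε₀ : ℝ, 0 < ε₀ ∧ ∀ ε : ℝ, 0 < ε → ε ≤ ε₀ →
  ∀ (S : PCl (r + 2)) (g₀ : ℝ → ℝ) (P : List (Fin (r + 2)) × Fin (r + 2) → ℝ → ℝ → ℝ)
    (θ : ℝ) (P₂ : ℕ → List (Fin (r + 2)) × Fin (r + 2) → ℝ → ℝ → ℝ) (θ₂ Eb e₂ : ℕ → ℝ)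
    (c : ℕ → Fin (r + 2)) (Pt : ℝ → ℝ → ℝ) (rt : ℝ → ℝ) (L T : ℕ → ℝ → ℝ → ℝ) (G : Set ℝ)
    (g : ℝ), IsClosed G → g ∈ G → (∀ l < r + 2, HasDerivAt (fun x => L l x x) (Sl l) g) →
    ∃ (p : ℕ → ι) (M : ℕ) (B₀ B₁ : ℕ → ℝ),
    (∀ j < M, B₀ j < B₁ j) ∧ ∀ k₀ : ℕ → ℕ, (∀ j < M, Q (p j) (k₀ j) S P θ c Pt rt L T κ G g) →
    ∀ μ : ℝ, 0 < μ → ∃ q₁ : ℝ, 0 < q₁ ∧ ∀ (q t : ℝ) (x : ℕ → ℝ),
      q < q₁ → (∀ j < M, x j ∈ G ∧ t + B₀ j * q ≤ x j ∧ x j ≤ t + B₁ j * q ∧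
        Q (p j) (k₀ j) S P θ c Pt rt L T κ G (x j)) →
      ∀ (N : ℕ) (A V : ℕ → ℝ) (Na : ℕ) (Va : ℕ → ℝ) (S₁ : PCl (r + 2)), SubC S₁ S →
      RecG S₁ al g₀ P θ P₂ θ₂ Eb e₂ c Pt rt h K₀ g L T Sl κ G S₀ N A V S₂ Na Va K' ε q t →
      (∀ k < Na, |Va k| ≤ K') →
      (∀ k < Nr, ∃ j < N, A j = Ar k ∧ V j = Vr k) → (∀ k < Nv, ∃ j < Na, Va j = Vv k) →
      ∀ (N₁ N₂ : ℕ) (vw : ℕ → ℝ), 1 ≤ N₁ → N₁ ≤ N₂ → 3 ≤ N₂ →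
      (∀ k < ns, ∃ j, N₁ < j ∧ 4 ≤ j ∧ j ≤ N₂ ∧ vw j = vs k) →
      ∀ (i j : ℕ) (R g₂ Xa e₀ π₀ : ℝ) (Ψ : Fml (r + 2)) (w p₁ p₂ eN uN pN pa₁ pa₂ ea ua pa : ℝ),
      i < Na → j < Na → Va i = -y₁ → Va j = 0 → y₁ ≤ R →
      AlO S₁ c L Db Na Va i j R hb dt lam rr ℓ g₂ Xa hh μ e₀ π₀ q t Ψ w p₁ p₂ eN uN pN pa₁ pa₂ ea
        ua pa →
      ∃ (S' : PCl (r + 2)) (Θ : Fm2 (r + 2)), S'.Ne ∧ SubC S' S₁ ∧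
      (∀ (J : ℕ) (F : Fam (r + 2) J) (A B : F.Ω → Prop) (V C : Type) (z : PtT F → V)
        (z' : LnT F → V) (G₁ G₂ : V → MvPolynomial (Option (Fin (r + 2))) ℝ) (cc : LnT F → C),
        Sub B A → Θ J F A V C z z' G₁ G₂ cc → Θ J F B V C z z' G₁ G₂ cc) ∧
      (∀ (J : ℕ) (F : Fam (r + 2) J) (A : F.Ω → Prop) (V C : Type) (z : PtT F → V)
        (z' : LnT F → V) (G₁ G₂ : V → MvPolynomial (Option (Fin (r + 2))) ℝ) (cc : LnT F → C),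
        Θ J F A V C z z' G₁ G₂ cc →
        NzF Ψ c r (c (r + 1)) Db Db Db w (t + Va i * q) p₁ p₂ eN uN pN J F A V z z' G₂) ∧
      Bas S' (fun J F A => ∃ (V C : Type) (z : PtT F → V) (z' : LnT F → V)
        (G₁ G₂ : V → MvPolynomial (Option (Fin (r + 2))) ℝ) (cc : LnT F → C),
        Θ J F A V C z z' G₁ G₂ cc) ∧
      ∀ (κ' : ℝ) (qf : ℕ → Fin r → ℕ) (Pq : Fin r → ℝ), 0 < κ' → κ' ≤ 1 →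
        (∀ i, (kf + 1) * q ≤ Pq i) → (∀ (J : ℕ) (i : Fin r), Pq i * J - 2 ≤ qf J i) →
        ∃ K₂ : ℝ, 0 < K₂ ∧
        VfNU S' c r D Dw Dr N₁ N₂ (fun l => κ l = .one ∨ κ l = .thin) C (t + a * q)
          (Eb (r + 1)) (3 * ε * q) (hh * q) (X * q) (Sl (r + 1) * q) (kf * q) (L (r + 1))
          (fun k => t + vG y k₁ vw k * q)
          (fun k l => lvN P c (r + 1) (L (r + 1)) l (t + vG y k₁ vw k * q) (t + vG y k₁ vw k * q))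
          (fun k l => bet P c l (t + a * q) (t + vG y k₁ vw k * q)) κ' qf δ K₂
          (XiF Θ (t + Va i * q))

/-- A level at a window of a record is positive. -/
theorem rec_pos {m : ℕ} {l : ℕ} (hl : l < m) {L : ℕ → ℝ → ℝ → ℝ} {s g : ℝ}
    (hd : HasDerivAt (fun x => L l x x) s g) {K₀ K : ℝ} (hK₀ : 0 < K₀) (hK : K₀ ≤ K)
    (hn : ¬ 0 < L l g g) : ∃ q₁ : ℝ, 0 < q₁ ∧
    ∀ {S : PCl m} {al : ℝ} {g₀ : ℝ → ℝ} {P : List (Fin m) × Fin m → ℝ → ℝ → ℝ}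
      {θ : ℝ} {P₂ : ℕ → List (Fin m) × Fin m → ℝ → ℝ → ℝ} {θ₂ Eb e₂ : ℕ → ℝ}
      {c : ℕ → Fin m} {Pt : ℝ → ℝ → ℝ} {r : ℝ → ℝ} {h : ℝ} {T : ℕ → ℝ → ℝ → ℝ}
      {Sl : ℕ → ℝ} {κ : ℕ → Kg} {G : Set ℝ} {S₀ N : ℕ} {A V : ℕ → ℝ} {S₂ N' : ℕ} {V' : ℕ → ℝ}
      {ε q t : ℝ}, q < q₁ →
      RecG S al g₀ P θ P₂ θ₂ Eb e₂ c Pt r h K₀ g L T Sl κ G S₀ N A V S₂ N' V' K ε q t → False := by
  push Not at hn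
  by_cases hg : 0 < g
  · obtain ⟨d, hd0, H⟩ := Metric.continuousAt_iff.1 hd.continuousAt (g / 2) (by linarith)
    refine ⟨min (d / K₀) (g / 2 / K₀), by positivity, ?_⟩
    intro S al g₀ P θ P₂ θ₂ Eb e₂ c Pt r h T Sl κ G S₀ N A V S₂ N' V' ε q t hq R
    have hq1 := hq.trans_le (min_le_left _ _)
    have hq2 := hq.trans_le (min_le_right _ _)
    rw [lt_div_iff₀ hK₀] at hq1 hq2
    have h1 := R.near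
    have h2 := (abs_le.1 h1).1
    have h3 := @H t (by
      rw [Real.dist_eq]
      linarith)
    rw [Real.dist_eq, abs_lt] at h3
    have hq0 := R.q0
    have ht0 := R.t0
    have ht1 := R.t1
    have hKq : 0 < K * q := mul_pos (by linarith) hq0
    have h4 := R.low_at hl (show (0 : ℝ) ≤ t by linarith) le_rfl (by linarith)
    linarith [h3.2]
  · refine ⟨1, one_pos, ?_⟩
    intro S al g₀ P θ P₂ θ₂ Eb e₂ c Pt r h T Sl κ G S₀ N A V S₂ N' V' ε q t hq R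
    have h2 := (abs_le.1 R.near).2
    have h3 := R.t0
    have h4 : K₀ * q ≤ K * q := mul_le_mul_of_nonneg_right hK R.q0.le
    push Not at hg
    linarith

end Pool.ALT
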