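import Pool.Agent.H92.ALT.Jn5
import Pool.Agent.H92.ALT.Jn6

/-!
# The last coordinate has no drop at the windows with a family of small rate, `u` thin

`cbN_thin_gt`: `u` thin of larger slope. `cbN_thin_ne`: `u` thin, the slopes different.
-/

set_option autoImplicit false

namespace Pool.ASM

open MeasureTheory Set Filter Topology
open Pool.GEN Pool.PKG Pool.SW Pool.ALT
open Pool.LA91 (FaQ sumQ HerQ her_sum her_fa aePG_fa aePG_sum)
open Pool.MIC6
open Pool.V0F (LbU ChUQ AttUQ her_chU aePG_chU her_attU aePG_attU)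

/-- **`u` thin of larger slope.** -/
theorem cbN_thin_gt : CbN .thin (fun Sl => Sl 3 < Sl 2) := by
  have hbQ : AePG 4 (sumQ (ChUQ : PropG 4 Unit) (AttUQ : PropG 4 Unit)) :=
    aePG_sum (aePG_chU 4) (her_chU 4) (aePG_attU 4)
  have hhQ : HerQ (sumQ (ChUQ : PropG 4 Unit) (AttUQ : PropG 4 Unit)) :=
    her_sum (her_chU 4) (her_attU 4)
  refine ⟨((Unit ⊕ Unit) ⊕ (Unit ⊕ Unit)) ⊕ (ℕ × ℕ × ℚ × ℚ), inferInstance,
    sumQ (sumQ (sumQ (ChUQ : PropG 4 Unit) (AttUQ : PropG 4 Unit))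
      (sumQ (ChUQ : PropG 4 Unit) (AttUQ : PropG 4 Unit))) FaQ,
    aePG_sum (aePG_sum hbQ hhQ hbQ) (her_sum hhQ hhQ) (aePG_fa 4),
    her_sum (her_sum hhQ hhQ) (her_fa 4), ?_⟩
  intro h hh hh1 Sl hS hlt β' hβ D
  have s2 := hS.thin rfl
  have s3 := hS.s3
  obtain ⟨hb, hb0, hb1, hbβ⟩ := hb_of (by linarith) hβ
  have hκ : ∀ l < 2, (kg4 .one .one .thin .stp) l = .one := fun l hl => by interval_cases l <;> rfl
  have hv := svNC_B (r := 2) (by norm_num) (y := 3 / 2) (a := Sl 3 + 1) (h := h) (W := TruW 4)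
    (Dv := D) (β' := β') (hb := hb) (κ := kg4 .one .one .thin .stp) hκ rfl rfl hb0 hb1 hbβ
    (show 1 < Sl 3 by linarith) hlt le_rfl (by linarith) le_rfl
    (vbYb_of (r := 2) (by norm_num) hκ (show 1 < Sl 3 by linarith) hb0 hb1)
  have hz := celZ_nyc (m := 4) (r := 2) (by norm_num) (by norm_num) hκ
    (show Kg.thin ≠ Kg.any from fun h => nomatch h) rfl (by linarith) s3 le_rfl (by linarith)
    le_rfl hv
  rw [admN_eq]
  exact hz.mono id fun _ _ _ _ _ _ _ _ _ _ _ hZ => ⟨trivial, hZ⟩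

/-- **`u` thin, the slopes different.** -/
theorem cbN_thin_ne : CbN .thin (fun Sl => Sl 2 ≠ Sl 3) := by
  obtain ⟨ι, hι, Q, h1, h2, H⟩ := cbN_thin'
  obtain ⟨ι', hι', Q', h1', h2', H'⟩ := cbN_thin_gt
  refine ⟨ι ⊕ ι', inferInstance, sumQ Q Q', aePG_sum h1 h2 h1', her_sum h2 h2', ?_⟩
  intro h hh hh1 Sl hS hne β' hβ D
  rcases lt_or_gt_of_ne hne with hlt | hlt
  · exact (H h hh hh1 Sl hS hlt β' hβ D).inl
  · exact (H' h hh hh1 Sl hS hlt β' hβ D).inr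

end Pool.ASM
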