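import Pool.Agent.H92.ALT.Jt1
import Pool.Agent.H92.ALT.Jn7

/-!
# The last coordinate has no drop, from a blind family and its velocity

`VbTP`: a blind family and its velocity, for the kinds `one, one, k; stp`, under `Z`. `CelTP`: the
last coordinate has no drop, under `Z`. `celT_thin`: `u` thin, the slopes different. `celT_u`: `u`
steep or static.
-/

set_option autoImplicit false

namespace Pool.ASM

open MeasureTheory Set Filter Topology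
open Pool.GEN Pool.PKG Pool.SW Pool.ALT
open Pool.LA91 (FaQ sumQ HerQ her_sum her_fa aePG_fa aePG_sum)
open Pool.MIC6

/-- **A blind family and its velocity**, for the kinds `one, one, k; stp` and the slopes with `Φ`,
under `Z`; the deep window is `t + y q`, the radius `t + a q` of the rows is large. -/
def VbTP (k : Kg) (Φ : (ℕ → ℝ) → Prop) {Λ : Type} (Z : (ℕ → ℝ) → PropZ 4 Λ) : Prop :=
  ∃ (ι : Type) (_ : Countable ι) (Q : PropG 4 ι), AePG 4 Q ∧ HerQ Q ∧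
    ∀ h : ℝ, 0 < h → h ≤ 1 → ∀ Sl : ℕ → ℝ, SlB k Sl → Φ Sl → ∀ y : ℝ, 3 / 2 ≤ y →
      ∀ (nb : ℕ) (bw : ℕ → ℝ), (∀ k < nb, bw k ≤ y) → ∃ a₀ : ℝ, ∀ a : ℝ, a₀ ≤ a →
        y + 1 / 2 ≤ a → Sl 3 + 1 ≤ a → VbT 2 y a h nb bw Sl (kg4 .one .one k .stp) Q (Z Sl)

/-- **The last coordinate has no drop**, for the kinds `one, one, k; stp` and the slopes with `Φ`,
under `Z`. -/
def CelTP (k : Kg) (Φ : (ℕ → ℝ) → Prop) {Λ : Type} (Z : (ℕ → ℝ) → PropZ 4 Λ) : Prop :=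
  ∃ (ι : Type) (_ : Countable ι) (Q : PropG 4 ι), AePG 4 Q ∧ HerQ Q ∧
    ∀ h : ℝ, 0 < h → h ≤ 1 → ∀ Sl : ℕ → ℝ, SlB k Sl → Φ Sl →
      CelZ 4 3 h Sl (kg4 .one .one k .stp) Q (Z Sl)

/-- **`u` thin, the slopes different.** -/
theorem celT_thin {Φ : (ℕ → ℝ) → Prop} (hΦ : ∀ Sl, Φ Sl → Sl 2 ≠ Sl 3) {Λ : Type}
    {Z : (ℕ → ℝ) → PropZ 4 Λ} (H : VbTP .thin Φ Z) : CelTP .thin Φ Z := by
  obtain ⟨ι, hι, Q, h1, h2, H⟩ := H
  refine ⟨ι ⊕ (ℕ × ℕ × ℚ × ℚ), inferInstance, sumQ Q FaQ, aePG_sum h1 h2 (aePG_fa 4),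
    her_sum h2 (her_fa 4), ?_⟩
  intro h hh hh1 Sl hS hΦS
  have hκ : ∀ l < 2, (kg4 .one .one .thin .stp) l = .one := fun l hl => by interval_cases l <;> rfl
  have s2 := hS.thin rfl
  have s3 := hS.s3
  rcases lt_or_gt_of_ne (hΦ Sl hΦS) with hlt | hlt
  · obtain ⟨b, hbd⟩ : ∃ b : ℝ, b = Sl 3 := ⟨_, rfl⟩
    obtain ⟨s, hsd⟩ : ∃ s : ℝ, s = Sl 2 := ⟨_, rfl⟩
    rw [← hbd, ← hsd] at hlt
    rw [← hbd] at s3
    rw [← hsd] at s2
    obtain ⟨y, hy⟩ : ∃ y : ℝ, y = max (3 / 2) ((b - 1) / (b - s)) := ⟨_, rfl⟩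
    have hy1 : 3 / 2 ≤ y := by rw [hy]; exact le_max_left _ _
    have hy2 : b - 1 ≤ y * (b - s) := by
      have : (b - 1) / (b - s) ≤ y := by rw [hy]; exact le_max_right _ _
      rwa [div_le_iff₀ (by linarith)] at this
    obtain ⟨bw, hbw⟩ : ∃ bw : ℕ → ℝ, bw = fun k => if k = 0 then 0 else if k = 1 then 1 else y :=
      ⟨_, rfl⟩
    have b0 : bw 0 = 0 := by rw [hbw]; norm_num
    have b1 : bw 1 = 1 := by rw [hbw]; norm_num
    have b2 : bw 2 = y := by rw [hbw]; norm_num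
    obtain ⟨a₀, H⟩ := H h hh hh1 Sl hS hΦS y hy1 3 bw (fun k hk => by
      interval_cases k
      · rw [b0]
        linarith
      · rw [b1]
        linarith
      · rw [b2])
    obtain ⟨a, ha⟩ : ∃ a : ℝ, a = max (max (y + 1 / 2) (b + 1)) (max (b - 1 + (s - 1) * y) a₀) :=
      ⟨_, rfl⟩
    have ha1 : y + 1 / 2 ≤ a := by rw [ha]; exact (le_max_left _ _).trans (le_max_left _ _)
    have ha2 : b + 1 ≤ a := by rw [ha]; exact (le_max_right _ _).trans (le_max_left _ _)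
    have ha3 : b - 1 + (s - 1) * y ≤ a := by
      rw [ha]
      exact (le_max_left _ _).trans (le_max_right _ _)
    have ha4 : a₀ ≤ a := by rw [ha]; exact (le_max_right _ _).trans (le_max_right _ _)
    rw [hbd] at ha2
    have hv := svNY_T (r := 2) (κ := kg4 .one .one .thin .stp) rfl rfl hy1 ha1 ha2
      (by rw [← hbd, ← hsd]; exact hy2) (by rw [← hbd, ← hsd]; exact ha3) ⟨0, by norm_num, b0⟩
      ⟨1, by norm_num, b1⟩ ⟨2, by norm_num, b2⟩ (H a ha4 ha1 ha2)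
    exact celZ_ny (m := 4) (r := 2) (by norm_num) (by norm_num) hκ
      (show Kg.thin ≠ Kg.any from fun h => nomatch h) rfl (by rw [← hsd]; linarith)
      (by rw [← hbd]; linarith) hy1 ha1 ha2 hv
  · obtain ⟨v₁, hv₁⟩ : ∃ v₁ : ℝ, v₁ = (Sl 3 - 1) / (Sl 2 - Sl 3) := ⟨_, rfl⟩
    have hv₁0 : 0 ≤ v₁ := by
      rw [hv₁]
      exact div_nonneg (by linarith) (by linarith)
    have hv₁1 : Sl 3 - 1 ≤ (Sl 2 - Sl 3) * v₁ := by
      rw [hv₁, mul_div_cancel₀ _ (by linarith : Sl 2 - Sl 3 ≠ 0)]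
    obtain ⟨bw, hbw⟩ : ∃ bw : ℕ → ℝ, bw = fun k => if k = 0 then 0 else if k = 1 then 1 else
      -v₁ := ⟨_, rfl⟩
    have b0 : bw 0 = 0 := by rw [hbw]; norm_num
    have b1 : bw 1 = 1 := by rw [hbw]; norm_num
    have b2 : bw 2 = -v₁ := by rw [hbw]; norm_num
    obtain ⟨a₀, H⟩ := H h hh hh1 Sl hS hΦS (3 / 2) le_rfl 3 bw (fun k hk => by
      interval_cases k
      · rw [b0]
        norm_num
      · rw [b1]
        norm_num
      · rw [b2]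
        linarith)
    obtain ⟨a, ha⟩ : ∃ a : ℝ, a = max (Sl 3 + 1) a₀ := ⟨_, rfl⟩
    have ha2 : Sl 3 + 1 ≤ a := by rw [ha]; exact le_max_left _ _
    have ha4 : a₀ ≤ a := by rw [ha]; exact le_max_right _ _
    have ha1 : (3 : ℝ) / 2 + 1 / 2 ≤ a := by linarith
    have hv := svNC_T (r := 2) (by norm_num) (κ := kg4 .one .one .thin .stp) hκ rfl rfl
      (show 1 < Sl 3 by linarith) hlt le_rfl ha1 ha2 hv₁0 hv₁1 ⟨0, by norm_num, b0⟩
      ⟨1, by norm_num, b1⟩ ⟨2, by norm_num, b2⟩ (H a ha4 ha1 ha2)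
    exact celZ_nyc (m := 4) (r := 2) (by norm_num) (by norm_num) hκ
      (show Kg.thin ≠ Kg.any from fun h => nomatch h) rfl (by linarith) s3 le_rfl ha1 ha2 hv

/-- **`u` steep or static.** -/
theorem celT_u {k : Kg} (hk : k = .stp ∨ k = .sta) {Φ : (ℕ → ℝ) → Prop} {Λ : Type}
    {Z : (ℕ → ℝ) → PropZ 4 Λ} (H : VbTP k Φ Z) : CelTP k Φ Z := by
  obtain ⟨ι, hι, Q, h1, h2, H⟩ := H
  refine ⟨ι ⊕ (ℕ × ℕ × ℚ × ℚ), inferInstance, sumQ Q FaQ, aePG_sum h1 h2 (aePG_fa 4),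
    her_sum h2 (her_fa 4), ?_⟩
  intro h hh hh1 Sl hS hΦS
  have s3 := hS.s3
  have s2 : 1 ≤ Sl 2 := by
    rcases hk with hk | hk
    · have := hS.stp hk
      linarith
    · have := hS.sta hk
      linarith
  have hκ : ∀ l < 2, (kg4 .one .one k .stp) l = .one := fun l hl => by interval_cases l <;> rfl
  obtain ⟨bw, hbw⟩ : ∃ bw : ℕ → ℝ, bw = fun k => if k = 0 then 0 else 1 := ⟨_, rfl⟩
  have b0 : bw 0 = 0 := by rw [hbw]; norm_num
  have b1 : bw 1 = 1 := by rw [hbw]; norm_num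
  obtain ⟨a₀, H⟩ := H h hh hh1 Sl hS hΦS (3 / 2) le_rfl 2 bw (fun k hk => by
    interval_cases k
    · rw [b0]
      norm_num
    · rw [b1]
      norm_num)
  obtain ⟨a, ha⟩ : ∃ a : ℝ, a = max (Sl 3 + 1) a₀ := ⟨_, rfl⟩
  have ha2 : Sl 3 + 1 ≤ a := by rw [ha]; exact le_max_left _ _
  have ha4 : a₀ ≤ a := by rw [ha]; exact le_max_right _ _
  have ha1 : (3 : ℝ) / 2 + 1 / 2 ≤ a := by linarith
  have hv := svNU_T (r := 2) (show 1 < Sl 3 by linarith) ⟨0, by norm_num, b0⟩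
    ⟨1, by norm_num, b1⟩ (H a ha4 ha1 ha2)
  exact celZ_nyu (m := 4) (r := 2) (by norm_num) (by norm_num) hκ
    (show k ≠ .any by rcases hk with rfl | rfl <;> exact fun h => nomatch h) rfl s2 s3 le_rfl ha1
    ha2 hv (hur_ss (m := 4) (r := 2) (by norm_num) (by norm_num) hκ (show k = .stp ∨ k = .sta from hk)
      (by norm_num) (by linarith))

end Pool.ASM
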