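import Pool.Agent.H92.ALT.Jn1
import Pool.Agent.H92.ALT.Sl7
import Pool.Agent.H92.V0F.Vsd
import Pool.Agent.H73.D2.Tnp

/-!
# The end for a steep coordinate when a family of labels has small rate, any kind of `u`

`svNU_B`: `SvNU` under `LowE`, from `VbY`.
-/

set_option autoImplicit false

namespace Pool.ALT

open Finset Real MvPolynomial
open Pool.Agent.H49.Ent Pool.Agent.H32.Dense Pool.STK Pool.KA Pool.KSAT Pool.K2S Pool.PB Pool.S6C
  Pool.GEN Pool.RCD Pool.LA91 Pool.OWN68 Pool.PKG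
open Pool.CHT Pool.CHX Pool.ISO Pool.D2R Pool.D2G30 Pool.V1E Pool.CR99 Pool.GRW
open Pool.UNJ (ceI)
open Pool.GRD (LbP)
open Pool.PN18 (Fm2)
open Pool.V0F (LbU ChUQ AttUQ)

/-- The second labels of a family of natural labels are blind. -/
theorem blb_imp' {m : ℕ} {S : PCl m} {Ψ Ψ' : Fml m} {c : ℕ → Fin m} {r₀ : ℕ} {κ : Fin m}
    {w v : ℝ} {K₁ Ku : ℕ} {p₁ p₂ x₀ : ℝ}
    (h : BlB S c r₀ κ w v K₁ Ku p₁ p₂ x₀ Ψ)
    (hi : ∀ (J : ℕ) (F : Fam m J) (A : F.Ω → Prop) (V : Type) (z : PtT F → V)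
      (z' : LnT F → V) (G : V → MvPolynomial (Option (Fin m)) ℝ), Ψ' J F A V z z' G →
      Ψ J F A V z z' G) : BlB S c r₀ κ w v K₁ Ku p₁ p₂ x₀ Ψ' := by
  intro η χ hη hχ
  refine Bas.mono 0 (h η χ hη hχ) ?_
  rintro J - F A h0 V z z' G g
  exact h0 V z z' G (hi J F A V z z' G g)

/-- **The end for a steep coordinate, when a family of labels has small rate**, any kind of `u`. -/
theorem svNU_B {r : ℕ} {y a h hb β' : ℝ} {Sl : ℕ → ℝ} {κ : ℕ → Kg} {ι : Type}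
    {Q : PropG (r + 2) ι} {W : PropW (r + 2)} {Dv : ℕ} (hb0 : 0 < hb) (hb1 : hb ≤ 1)
    (hβ : β' ≤ (1 - hb) * Sl (r + 1) * Real.log 2) (hs : 1 < Sl (r + 1))
    (hV : VbY r y a h hb Sl κ Q) :
    SvNU (r + 2) r y a h Sl κ (sumQ Q (sumQ (ChUQ : PropG (r + 2) Unit)
      (AttUQ : PropG (r + 2) Unit)))
      (fun e : PosR => AndW W (LowE (AdmL (r + 2)) β' Dv e)) := by
  classical
  intro al hal K₀ hK₀ S₀ hS₀
  obtain ⟨Kr, Nr, Ar, Vr, hKr, hAV, hV⟩ := hV al hal K₀ hK₀ S₀ hS₀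
  obtain ⟨D₀, hD₀, halo⟩ := alo_rec r S₀ hS₀
  refine ⟨Kr, Nr, Ar, Vr, hKr, hAV, fun S₂ hS₂ D hD => ?_⟩
  obtain ⟨D₁, hV⟩ := hV S₂ hS₂ D hD
  obtain ⟨Db, hDb⟩ : ∃ Db : ℕ, Db = max (max D D₀) (max D₁ Dv) := ⟨_, rfl⟩
  have hDb1 : D ≤ Db := by rw [hDb]; exact (le_max_left _ _).trans (le_max_left _ _)
  have hDb2 : D₀ ≤ Db := by rw [hDb]; exact (le_max_right _ _).trans (le_max_left _ _)
  have hDb3 : D₁ ≤ Db := by rw [hDb]; exact (le_max_left _ _).trans (le_max_right _ _)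
  have hDb4 : Dv ≤ Db := by rw [hDb]; exact (le_max_right _ _).trans (le_max_right _ _)
  have hDbK : D ≤ Db * max 1 Db := hDb1.trans (Nat.le_mul_of_pos_right _ (by simp))
  obtain ⟨Dr₀, hV⟩ := hV Db hDb1 hDb3
  refine ⟨max Dr₀ (Db * max 1 Db), hDbK.trans (le_max_right _ _), fun C hC Du => ?_⟩
  obtain ⟨Dw₀, hV⟩ := hV _ (le_max_left Dr₀ (Db * max 1 Db)) C hC
  obtain ⟨Dw, hDw⟩ : ∃ Dw : ℕ, Dw = max (max Dw₀ (Db * max 1 Db)) Du := ⟨_, rfl⟩
  have hDw1 : Dw₀ ≤ Dw := by rw [hDw]; exact (le_max_left _ _).trans (le_max_left _ _)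
  have hDw2 : Db * max 1 Db ≤ Dw := by rw [hDw]; exact (le_max_right _ _).trans (le_max_left _ _)
  have hDw3 : Du ≤ Dw := by rw [hDw]; exact le_max_right _ _
  refine ⟨Dw, hDbK.trans hDw2, hDw3, fun δ X₀ hδ hδ1 hX₀ => ?_⟩
  obtain ⟨y₁, lam, rr, gg, dt, ℓ₀, kf₀, X₁, hy₁, hlam, hrr, hgg, hdt, hℓ₀, hX₁, hly, hV⟩ :=
    hV _ hDw1 δ X₀ hδ hδ1 hX₀
  obtain ⟨b, hbd⟩ : ∃ b : ℝ, b = Sl (r + 1) := ⟨_, rfl⟩
  rw [← hbd] at hβ hs hly
  have hbp : 0 < b := by linarith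
  have hby : 0 < b * y₁ := mul_pos hbp hy₁
  obtain ⟨X, hX⟩ : ∃ X : ℝ, X = min (min X₀ X₁) (min 1 (b * y₁)) := ⟨_, rfl⟩
  have hX0 : 0 < X := by rw [hX]; exact lt_min (lt_min hX₀ hX₁) (lt_min one_pos hby)
  have hXa : X ≤ X₀ := by rw [hX]; exact (min_le_left _ _).trans (min_le_left _ _)
  have hXb : X ≤ X₁ := by rw [hX]; exact (min_le_left _ _).trans (min_le_right _ _)
  have hXc : X ≤ 1 := by rw [hX]; exact (min_le_right _ _).trans (min_le_left _ _)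
  have hXd : X ≤ b * y₁ := by rw [hX]; exact (min_le_right _ _).trans (min_le_right _ _)
  obtain ⟨R, hR⟩ : ∃ R : ℝ, R = max (1 + y₁) ((rr + gg) / b) := ⟨_, rfl⟩
  have hR1 : 1 + y₁ ≤ R := by rw [hR]; exact le_max_left _ _
  have hR2 : rr + gg ≤ b * R := by
    have : (rr + gg) / b ≤ R := by rw [hR]; exact le_max_right _ _
    rw [div_le_iff₀ hbp] at this
    linarith
  have hR0 : 0 < R := by linarith
  obtain ⟨ℓ, h₁, ε₁, e₁, hℓ, hℓ₁, hh₁, hε₁, he₁, halo⟩ := halo Db hDb2 (b := b) (h := hb)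
    (δ := dt) (lam := lam) (rr := rr) (gg := gg) (R := R) (K₁ := K₀) (ℓ₀ := ℓ₀) (X := X / 4)
    (g₂ := y₁) hbp hb0 hb1 hdt hlam hrr hgg hR0.le hK₀.le hℓ₀ (by linarith) hy₁ (by linarith)
  obtain ⟨kf, hkf⟩ : ∃ kf : ℝ, kf = max kf₀ b := ⟨_, rfl⟩
  obtain ⟨h₂, hh₂, hV⟩ := hV ℓ X kf hℓ hℓ₁ hX0 hXb (by rw [hkf]; exact le_max_left _ _)
  have hC0 : 0 < C := by linarith
  refine ⟨⟨e₁, he₁⟩, kf, X, min h₁ (min h₂ (X / (20 * C))), by
    rw [← hbd, hkf]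
    exact le_max_right _ _, hX0, hXa, by positivity, fun hh k₁ hhh hhl hk1 hk2 => ?_⟩
  have hhl1 := hhl.trans (min_le_left _ _)
  have hhl2 := hhl.trans ((min_le_right _ _).trans (min_le_left _ _))
  have hhl3 := hhl.trans ((min_le_right _ _).trans (min_le_right _ _))
  rw [le_div_iff₀ (by positivity)] at hhl3
  obtain ⟨K₁, Nv, Vv, ns, vs, hVv, hvs, hV⟩ := hV hh k₁ hhh hhl2 hk1 hk2
  -- the windows
  obtain ⟨Va, hVa⟩ : ∃ Va : ℕ → ℝ, Va = fun k => if k < Nv then Vv k else if k = Nv then -y₁ else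
    if k = Nv + 1 then 0 else 1 := ⟨_, rfl⟩
  have v0 : ∀ k < Nv, Va k = Vv k := fun k hk => by rw [hVa]; simp only [hk, if_true]
  have v1 : Va Nv = -y₁ := by rw [hVa]; simp
  have v2 : Va (Nv + 1) = 0 := by rw [hVa]; simp
  have v3 : Va (Nv + 2) = 1 := by rw [hVa]; simp
  obtain ⟨K₂, hK₂⟩ : ∃ K₂ : ℝ, K₂ = max (max K₁ (R + 1)) (K₀ + 1) := ⟨_, rfl⟩
  have hKa : K₁ ≤ K₂ := by rw [hK₂]; exact (le_max_left _ _).trans (le_max_left _ _)
  have hKb : R + 1 ≤ K₂ := by rw [hK₂]; exact (le_max_right _ _).trans (le_max_left _ _)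
  have hKd : K₀ + 1 ≤ K₂ := by rw [hK₂]; exact le_max_right _ _
  have hVaK : ∀ k < Nv + 3, -K₂ ≤ Va k ∧ Va k ≤ K₂ := by
    intro k hk
    rcases Nat.lt_or_ge k Nv with h1 | h1
    · rw [v0 k h1]
      obtain ⟨h2, h3⟩ := hVv k h1
      exact ⟨by linarith, by linarith⟩
    · obtain ⟨j, rfl⟩ : ∃ j, k = Nv + j := ⟨k - Nv, by omega⟩
      have hj : j < 3 := by omega
      interval_cases j
      · rw [Nat.add_zero, v1]
        exact ⟨by linarith, by linarith⟩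
      · rw [v2]
        exact ⟨by linarith, by linarith⟩
      · rw [v3]
        exact ⟨by linarith, by linarith⟩
  refine ⟨K₂, Nv + 3, Va, ns, vs, hVaK, fun j hj => ?_, fun K' hK' => ?_⟩
  · obtain ⟨h2, h3⟩ := hvs j hj
    exact ⟨by linarith, h3⟩
  obtain ⟨ε₀, hε₀, hV⟩ := hV K' (hKa.trans hK')
  refine ⟨min ε₀ (min ε₁ (X / 16)), by positivity, fun ε hε hεε => ?_⟩
  have hεa := hεε.trans (min_le_left _ _)
  have hεb := hεε.trans ((min_le_right _ _).trans (min_le_left _ _))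
  have hεc := hεε.trans ((min_le_right _ _).trans (min_le_right _ _))
  intro S g₀ P θ P₂ θ₂ Eb e₂ c Pt rt L T G g hG hg hder hZ
  obtain ⟨-, i₀, ⟨a1, a2, a3, a4, a5, a6, a7⟩, hiD, φ, k₂, hφ0, hφ, hrt⟩ := hZ
  have hK'0 : K₀ ≤ K' := by linarith
  have hK'p : 0 < K' := by linarith
  by_cases hpos : 0 < L (r + 1) g g
  swap
  · obtain ⟨q₁, hq₁, H⟩ := rec_pos (by omega : r + 1 < r + 2) (hder (r + 1) (by omega)) hK₀ hK'0
      hpos
    exact ⟨fun _ => Sum.inr (Sum.inl ()), 0, fun _ => 0, fun _ => 1, fun j hj => by omega,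
      fun k₀ _ => ⟨q₁, hq₁, fun q t x hq _ N A V N' V' R => (H hq R).elim⟩⟩
  by_cases hposu : 0 < L r g g
  swap
  · obtain ⟨q₁, hq₁, H⟩ := rec_pos (by omega : r < r + 2) (hder r (by omega)) hK₀ hK'0 hposu
    exact ⟨fun _ => Sum.inr (Sum.inl ()), 0, fun _ => 0, fun _ => 1, fun j hj => by omega,
      fun k₀ _ => ⟨q₁, hq₁, fun q t x hq _ N A V N' V' R => (H hq R).elim⟩⟩
  have e1 : r + 2 - 1 = r + 1 := rfl
  have e2 : r + 2 - 2 = r := rfl
  rw [e1] at a1 a5 a6 a7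
  rw [e2] at a2 a7
  obtain ⟨μ₁, d, hμ₁, hd, hmar⟩ := mar_lin (hder r (by omega)) (hder (r + 1) (by omega)) hpos
    hposu a5 a6 a7
  obtain ⟨p, M, B₀, B₁, hB, hV⟩ := hV ε hε hεa S g₀ P θ P₂ θ₂ Eb e₂ c Pt rt L T G g hG hg hder
  refine ⟨fun j => if j < M then Sum.inl (p j) else if j = M then Sum.inr (Sum.inl ()) else
    Sum.inr (Sum.inr ()), M + 2, fun j => if j < M then B₀ j else 0,
    fun j => if j < M then B₁ j else 1, fun j hj => ?_, fun k₀ hk₀ => ?_⟩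
  · by_cases h4 : j < M
    · simp only [h4, if_true]
      exact hB j h4
    · simp only [h4, if_false]
      exact one_pos
  have hch : ChUQ (n := r + 2) () (k₀ M) S P θ c Pt rt L T κ G g := by
    have h4 := hk₀ M (by omega)
    simp only [lt_irrefl, if_false, if_true] at h4
    exact h4
  have hat : AttUQ (n := r + 2) () (k₀ (M + 1)) S P θ c Pt rt L T κ G g := by
    have h4 := hk₀ (M + 1) (by omega)
    simp only [show ¬ M + 1 < M by omega, show ¬ M + 1 = M by omega, if_false] at h4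
    exact h4
  obtain ⟨μ, hμ⟩ : ∃ μ : ℝ, μ = min μ₁ ((1 / 2) ^ k₀ (M + 1)) := ⟨_, rfl⟩
  have hμ0 : 0 < μ := by rw [hμ]; positivity
  have hμa : μ ≤ μ₁ := by rw [hμ]; exact min_le_left _ _
  have hμb : μ ≤ (1 / 2) ^ k₀ (M + 1) := by rw [hμ]; exact min_le_right _ _
  obtain ⟨q₁, hq₁, hV⟩ := hV k₀ (fun j hj => by
    have h4 := hk₀ j (by omega)
    simp only [hj, if_true] at h4
    exact h4) μ hμ0
  have hKK : 0 < K' + K₀ := by linarith
  have hb8 : 0 < 8 * b + 8 * rr := by linarith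
  have hKR : 0 < K₀ + R + 1 := by linarith
  refine ⟨min q₁ (min (min (d / (K' + K₀)) ((1 / 2) ^ k₂ / (K₀ + R + 1))) (min
    (μ / (8 * b + 8 * rr)) (min ((1 / 2) ^ k₀ (M + 1) / (K' + K₀)) μ))), by positivity,
    fun q t x hq hx N A V N' V' Rc hpr hwn N₁ N₂ vw hN1 hN12 hN2 hvw => ?_⟩
  have q1 := hq.trans_le (min_le_left _ _)
  have q2 := hq.trans_le ((min_le_right _ _).trans ((min_le_left _ _).trans (min_le_left _ _)))
  have q3 := hq.trans_le ((min_le_right _ _).trans ((min_le_left _ _).trans (min_le_right _ _)))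
  have q4 := hq.trans_le ((min_le_right _ _).trans ((min_le_right _ _).trans (min_le_left _ _)))
  have q5 := hq.trans_le ((min_le_right _ _).trans ((min_le_right _ _).trans
    ((min_le_right _ _).trans (min_le_left _ _))))
  have q6 := hq.trans_le ((min_le_right _ _).trans ((min_le_right _ _).trans
    ((min_le_right _ _).trans (min_le_right _ _))))
  rw [lt_div_iff₀ hKK] at q2 q5
  rw [lt_div_iff₀ hKR] at q3
  rw [lt_div_iff₀ hb8] at q4
  have hq0 := Rc.q0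
  -- the record with the windows `Va`
  have Ra := Rc.mono (K₁ := K') (ε₁ := ε) (N₁ := N) (A₁ := A) (V₁ := V) (N₁' := Nv + 3)
    (V₁' := Va) le_rfl le_rfl (fun k hk => ⟨k, hk, rfl, rfl⟩) (fun k hk => by
      obtain ⟨j, hj, e⟩ := hwn k hk
      exact ⟨j, hj, e.symm⟩)
  have hnear := Rc.near
  have hVaA : ∀ k < Nv + 3, |Va k| ≤ K' := fun k hk => by
    obtain ⟨h2, h3⟩ := hVaK k hk
    exact abs_le.2 ⟨by linarith, by linarith⟩
  have hwd : ∀ k < Nv + 3, |t + Va k * q - g| ≤ (K' + K₀) * q := by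
    intro k hk
    have h1 : |Va k * q| ≤ K' * q := by
      rw [abs_mul, abs_of_pos hq0]
      exact mul_le_mul_of_nonneg_right (hVaA k hk) hq0.le
    calc |t + Va k * q - g| = |(t - g) + Va k * q| := by congr 1; ring
      _ ≤ |t - g| + |Va k * q| := abs_add_le _ _
      _ ≤ K₀ * q + K' * q := add_le_add hnear h1
      _ = (K' + K₀) * q := by ring
  have hmw : ∀ k < Nv + 3, μ ≤ L (r + 1) (t + Va k * q) (t + Va k * q) ∧
      μ ≤ L r (t + Va k * q) (t + Va k * q) ∧ L r (t + Va k * q) (t + Va k * q) + μ ≤ 1 ∧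
      i₀.2.1 + L (r + 1) (t + Va k * q) (t + Va k * q) + μ ≤ 1 ∧
      i₀.2.2.2 + μ ≤ L (r + 1) (t + Va k * q) (t + Va k * q) ∧
      L (r + 1) (t + Va k * q) (t + Va k * q) + L r (t + Va k * q) (t + Va k * q) + μ ≤
        1 + i₀.2.2.2 := by
    intro k hk
    obtain ⟨b1, b2, b3, b4, b5, b6⟩ := hmar (t + Va k * q) ((hwd k hk).trans (by linarith))
    exact ⟨by linarith, by linarith, by linarith, by linarith, by linarith, by linarith⟩
  have hqX : X / 4 * q ≤ μ := by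
    have : X * q ≤ 1 * q := mul_le_mul_of_nonneg_right hXc hq0.le
    linarith
  have hXq0 : 0 < X / 4 * q := by positivity
  have hn0 : Nv < Nv + 3 := by omega
  have hn1 : Nv + 1 < Nv + 3 := by omega
  have hn2 : Nv + 2 < Nv + 3 := by omega
  have hat' : ∀ k ≥ k₂, AltAt S ((range (r + 1)).image c) ((range r).image c) (c (r + 1))
      i₀.1.2.2 i₀.2.1 i₀.2.2.1 i₀.2.2.2 (fun w => L (r + 1) w w) g φ e₁ k := by
    intro k hk
    have h4 := hrt k hk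
    rw [a1, a2] at h4
    exact h4
  obtain ⟨S₁, hs₁, R₁, Ψ, w, p₁, p₂, eN, uN, pN, pa₁, pa₂, ea, ua, pa, H⟩ := halo hh hhh hhl1 Ra
    hbd.symm (hKb.trans hK') hεb hVaA (fun k hk => by
      obtain ⟨rd, -, h2⟩ := hch _ (Ra.memG.2 k hk)
      exact ⟨rd, h2⟩) (μ := μ) (fun k hk => by
      obtain ⟨rk, E, c1, c2, c3, c4, c5⟩ := hat _ (Ra.memG.2 k hk) ((hwd k hk).trans (by linarith))
      exact ⟨E, rk, c3, by
        have c4' : E + L (r + 1) (t + Va k * q) (t + Va k * q) ≤ 1 - (1 / 2) ^ k₀ (M + 1) := c4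
        linarith, (hmw k hk).2.2.1, c5⟩) (x := g) (e₀ := i₀.2.1) (ρ₀ := i₀.2.2.1)
    (π₀ := i₀.2.2.2) (φ := φ) (e := e₁) (Kf := i₀.1.2.2) (k₁ := k₂) hnear (hiD.trans hDb4)
    he₁ le_rfl (hφ.trans hβ) hat' (by linarith) (by exact_mod_cast a4) (by exact_mod_cast a3) hμ0
    (by linarith) (i := Nv) (j := Nv + 1) hn0 hn1 (by
      rw [v1, abs_neg, abs_of_pos hy₁]
      linarith) (by
      rw [v2, abs_zero]
      linarith) (by
      rw [v1, v2]
      linarith) (by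
      rw [v1]
      nlinarith) (hmw Nv hn0).1 (by linarith [(hmw (Nv + 1) hn1).2.2.2.1])
    (by linarith [(hmw Nv hn0).2.2.2.2.1]) (by linarith [(hmw Nv hn0).2.2.2.2.2])
    (by linarith [(hmw (Nv + 1) hn1).2.2.2.2.2])
  -- the velocity
  obtain ⟨S', Θ, hne, hs', hΘs, hΘn, hΘe, hVf⟩ := hV q t x q1 (fun j hj => by
      obtain ⟨h4, h5, h6, h7⟩ := hx j (by omega)
      simp only [hj, if_true] at h5 h6 h7
      exact ⟨h4, h5, h6, h7⟩) N A V (Nv + 3) Va S₁ hs₁ R₁ hVaA hpr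
    (fun k hk => ⟨k, by omega, v0 k hk⟩) N₁ N₂ vw hN1 hN12 hN2 hvw
    Nv (Nv + 1) R y₁ (X / 4) i₀.2.1 i₀.2.2.2 Ψ w p₁ p₂ eN uN pN pa₁ pa₂ ea ua pa hn0 hn1 v1 v2
    (by linarith) H
  have hsub : SubC S' S := fun τ J F A h => hs₁ τ J F A (hs' τ J F A h)
  have R' := Rc.sub hne hsub
  refine ⟨S', XiF Θ (t + Va Nv * q), hsub, R', ⟨1 / (4 * 1), 8 * 1, by norm_num, by norm_num, ?_⟩,
    hVf⟩
  -- the slopes
  have hbl : ∀ k, k = Nv + 1 ∨ k = Nv + 2 →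
      BlB S' c r (c (r + 1)) (t + Va Nv * q) (t + Va k * q) D D
        (L (r + 1) (t + Va k * q) (t + Va k * q) - 2 * (hh * q))
        (L r (t + Va k * q) (t + Va k * q) - 2 * (hh * q))
        (L r (t + Va k * q) (t + Va k * q) - L (r + 1) (t + Va k * q) (t + Va k * q) +
          X / 4 * q) (Fm2.lab Θ) := by
    intro k hk
    have hk4 : k < Nv + 3 := by omega
    have hVk : 0 ≤ Va k ∧ Va k ≤ 1 := by
      rcases hk with rfl | rfl
      · rw [v2]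
        exact ⟨le_rfl, by linarith⟩
      · rw [v3]
        exact ⟨by norm_num, by linarith⟩
    obtain ⟨b1, b2, b3, b4, b5, b6⟩ := hmw k hk4
    have h1 := H.blb k hk4 (by rw [v1]; linarith) (abs_le.2 ⟨by linarith, by linarith⟩)
      (by linarith) hqX (by linarith) (by linarith) (by linarith)
    have h2 := BlB.deg hDb1 hDb1 h1
    have h3 := blb_imp' h2 (Ψ' := Fm2.lab Θ) (fun J F A V z z' G hG => by
      obtain ⟨C', G₁, cc, h⟩ := hG
      exact hΘn J F A V C' z z' G₁ G cc h)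
    intro u1 u2 u3 u4
    exact (h3 u1 u2 u3 u4).sub hs'
  have hlog : 10 * (C * hh) < X := by nlinarith
  have hwv : t + Va Nv * q ≤ t := by
    rw [v1]
    have := mul_pos hy₁ hq0
    linarith
  have := slN_recU (Θ := Θ) (k₁ := k₁) (vw := vw) (y := y) (a := a) (Eb' := Eb (r + 1))
    (ε' := 3 * ε * q) (Rg := fun l => κ l = .one ∨ κ l = .thin) (N₁ := N₁) (Dw := Dw)
    (Dr := max Dr₀ (Db * max 1 Db)) (Kd := Db * max 1 Db) R' hN2 hDw2
    (hDbK.trans (le_max_right _ _)) (le_max_right _ _) (by rw [← hbd]; linarith)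
    (by linarith) hhh hC hlog hε.le (by linarith) hwv
    (fun J F A V C z z' G₁ G₂ cc hG => by
      have h1 := (hΘn J F A V C z z' G₁ G₂ cc hG).lb
      exact ⟨fun y => by
        have := h1.deg y
        rwa [max_self] at this, h1.dep, h1.cls⟩) hΘs (fun v hv => by
      rcases hv with rfl | rfl
      · have := hbl (Nv + 1) (Or.inl rfl)
        rwa [v2] at this
      · have := hbl (Nv + 2) (Or.inr rfl)
        rwa [v3] at this) le_rfl (Bas.mono 0 hΘe fun J _ F A hA => by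
      obtain ⟨V, C', z, z', G₁, G₂, cc, h⟩ := hA
      exact ⟨A, fun _ h => h, by rw [one_mul], V, C', z, z', G₁, G₂, cc, h⟩)
  exact this

end Pool.ALT
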