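import Pool.Agent.H92.ALT.Jn2
import Pool.Agent.H92.ALT.Jn3
import Pool.Agent.H80.ASB.Cb1

/-!
# The last coordinate at the windows with a family of small rate

`VbP`: the velocity over the natural labels of a family of small rate, for the kinds
`one, one, k; stp`. `cbN_thin`, `cbN_u`: `CbN` from `VbP`, for `u` thin of slope less than the slope of
the last coordinate, and for `u` with closed labels of its tubes.
-/

set_option autoImplicit false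

namespace Pool.ASM

open MeasureTheory Set Filter Topology
open Pool.GEN Pool.PKG Pool.SW Pool.ALT
open Pool.LA91 (FaQ sumQ HerQ her_sum her_fa aePG_fa aePG_sum)
open Pool.ONE (Ext0 Ext)
open Pool.MIC6
open Pool.V0F (LbU ChUQ AttUQ her_chU aePG_chU her_attU aePG_attU)

/-- **The velocity over the natural labels of a family of small rate**, for the kinds
`one, one, k; stp` and the slopes with `Φ`. -/
def VbP (k : Kg) (Φ : (ℕ → ℝ) → Prop) : Prop :=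
  ∃ (ι : Type) (_ : Countable ι) (Q : PropG 4 ι), AePG 4 Q ∧ HerQ Q ∧
    ∀ h : ℝ, 0 < h → h ≤ 1 → ∀ Sl : ℕ → ℝ, SlB k Sl → Φ Sl →
      ∀ hb : ℝ, 0 < hb → hb ≤ 1 → ∀ y a : ℝ, 3 / 2 ≤ y → y + 1 / 2 ≤ a → Sl 3 + 1 ≤ a →
        VbY 2 y a h hb Sl (kg4 .one .one k .stp) Q

/-- **Closed labels of the tubes of the place 2**, for the slopes with `Φ`. -/
def HuP (k : Kg) (Φ : (ℕ → ℝ) → Prop) : Prop :=
  ∀ h : ℝ, 0 < h → h ≤ 1 → ∀ Sl : ℕ → ℝ, SlB k Sl → Φ Sl →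
    ∃ y a : ℝ, 3 / 2 ≤ y ∧ y + 1 / 2 ≤ a ∧ Sl 3 + 1 ≤ a ∧
      HuR 4 2 y a h Sl (kg4 .one .one k .stp)

/-- The deficit of a rate. -/
theorem hb_of {b β' : ℝ} (hb : 1 < b) (hβ : β' < b * Real.log 2) :
    ∃ hb : ℝ, 0 < hb ∧ hb ≤ 1 ∧ β' ≤ (1 - hb) * b * Real.log 2 := by
  have hl : 0 < Real.log 2 := Real.log_pos (by norm_num)
  have hbl : 0 < b * Real.log 2 := mul_pos (by linarith) hl
  refine ⟨min 1 ((b * Real.log 2 - β') / (b * Real.log 2)), lt_min one_pos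
    (div_pos (by linarith) hbl), min_le_left _ _, ?_⟩
  have h1 : min 1 ((b * Real.log 2 - β') / (b * Real.log 2)) ≤
    (b * Real.log 2 - β') / (b * Real.log 2) := min_le_right _ _
  rw [le_div_iff₀ hbl] at h1
  linarith

/-- **The last coordinate at the windows with a family of small rate**, `u` thin of smaller slope. -/
theorem cbN_thin {Φ : (ℕ → ℝ) → Prop} (hΦ : ∀ Sl, Φ Sl → Sl 2 < Sl 3) (H : VbP .thin Φ) :
    CbN .thin Φ := by
  obtain ⟨ι, hι, Q, h1, h2, H⟩ := H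
  refine ⟨(ι ⊕ (Unit ⊕ Unit)) ⊕ (ℕ × ℕ × ℚ × ℚ), inferInstance,
    sumQ (sumQ Q (sumQ (ChUQ : PropG 4 Unit) (AttUQ : PropG 4 Unit))) FaQ,
    aePG_sum (aePG_sum h1 h2 (aePG_sum (aePG_chU 4) (her_chU 4) (aePG_attU 4)))
      (her_sum h2 (her_sum (her_chU 4) (her_attU 4))) (aePG_fa 4),
    her_sum (her_sum h2 (her_sum (her_chU 4) (her_attU 4))) (her_fa 4), ?_⟩
  intro h hh hh1 Sl hS hΦS β' hβ D
  have hlt := hΦ Sl hΦS
  have s2 := hS.thin rfl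
  have s3 := hS.s3
  obtain ⟨b, hbd⟩ : ∃ b : ℝ, b = Sl 3 := ⟨_, rfl⟩
  obtain ⟨s, hsd⟩ : ∃ s : ℝ, s = Sl 2 := ⟨_, rfl⟩
  rw [← hbd, ← hsd] at hlt
  rw [← hbd] at hβ s3
  rw [← hsd] at s2
  obtain ⟨hb, hb0, hb1, hbβ⟩ := hb_of (by linarith) hβ
  obtain ⟨y, hy⟩ : ∃ y : ℝ, y = max (3 / 2) ((b - 1) / (b - s)) := ⟨_, rfl⟩
  have hy1 : 3 / 2 ≤ y := by rw [hy]; exact le_max_left _ _
  have hy2 : b - 1 ≤ y * (b - s) := by
    have : (b - 1) / (b - s) ≤ y := by rw [hy]; exact le_max_right _ _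
    rwa [div_le_iff₀ (by linarith)] at this
  obtain ⟨a, ha⟩ : ∃ a : ℝ, a = max (max (y + 1 / 2) (b + 1)) (b - 1 + (s - 1) * y) := ⟨_, rfl⟩
  have ha1 : y + 1 / 2 ≤ a := by rw [ha]; exact (le_max_left _ _).trans (le_max_left _ _)
  have ha2 : b + 1 ≤ a := by rw [ha]; exact (le_max_right _ _).trans (le_max_left _ _)
  have ha3 : b - 1 + (s - 1) * y ≤ a := by rw [ha]; exact le_max_right _ _
  rw [hbd] at ha2 hbβ
  have hv := svNY_B (r := 2) (W := TruW 4) (Dv := D) (β' := β') (hb := hb) rfl rfl hb0 hb1 hbβ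
    (by rw [← hbd]; linarith) hy1 ha1 ha2 (by rw [← hbd, ← hsd]; exact hy2)
    (by rw [← hbd, ← hsd]; exact ha3) (H h hh hh1 Sl hS hΦS hb hb0 hb1 y a hy1 ha1 ha2)
  have hz := celZ_ny (m := 4) (r := 2) (by norm_num) (by norm_num) (fun l hl => by
    interval_cases l <;> rfl) (show Kg.thin ≠ Kg.any from fun h => nomatch h) rfl
    (by rw [← hsd]; linarith) (by rw [← hbd]; linarith) hy1 ha1 ha2 hv
  rw [admN_eq]
  exact hz.mono id fun _ _ _ _ _ _ _ _ _ _ _ hZ => ⟨trivial, hZ⟩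

/-- **The last coordinate at the windows with a family of small rate**, for `u` with closed labels of
its tubes. -/
theorem cbN_u {k : Kg} {Φ : (ℕ → ℝ) → Prop} (hk : k ≠ .any) (hs : ∀ Sl, SlB k Sl → 1 ≤ Sl 2)
    (hU : HuP k Φ) (H : VbP k Φ) : CbN k Φ := by
  obtain ⟨ι, hι, Q, h1, h2, H⟩ := H
  refine ⟨(ι ⊕ (Unit ⊕ Unit)) ⊕ (ℕ × ℕ × ℚ × ℚ), inferInstance,
    sumQ (sumQ Q (sumQ (ChUQ : PropG 4 Unit) (AttUQ : PropG 4 Unit))) FaQ,
    aePG_sum (aePG_sum h1 h2 (aePG_sum (aePG_chU 4) (her_chU 4) (aePG_attU 4)))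
      (her_sum h2 (her_sum (her_chU 4) (her_attU 4))) (aePG_fa 4),
    her_sum (her_sum h2 (her_sum (her_chU 4) (her_attU 4))) (her_fa 4), ?_⟩
  intro h hh hh1 Sl hS hΦS β' hβ D
  have s3 := hS.s3
  obtain ⟨y, a, hy1, ha1, ha2, hU⟩ := hU h hh hh1 Sl hS hΦS
  obtain ⟨hb, hb0, hb1, hbβ⟩ := hb_of (by linarith) hβ
  have hv := svNU_B (r := 2) (W := TruW 4) (Dv := D) (β' := β') (hb := hb) hb0 hb1 hbβ
    (by linarith) (H h hh hh1 Sl hS hΦS hb hb0 hb1 y a hy1 ha1 ha2)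
  have hz := celZ_nyu (m := 4) (r := 2) (by norm_num) (by norm_num) (fun l hl => by
    interval_cases l <;> rfl) hk rfl (hs Sl hS) s3 hy1 ha1 ha2 hv hU
  rw [admN_eq]
  exact hz.mono id fun _ _ _ _ _ _ _ _ _ _ _ hZ => ⟨trivial, hZ⟩

end Pool.ASM
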