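import Pool.Agent.H92.ALT.Jn4
import Pool.Agent.H42.D2.Nqc
import Pool.Agent.H80.NYU.HuS

/-!
# The last coordinate has no drop at the windows with a family of small rate

`vbP`: `VbP` for all kinds and slopes. `cbN_thin'`, `cbN_stp`, `cbN_sta`: the last coordinate steep
over two coordinates of slope one and a coordinate `u` thin of smaller slope, steep, or static.
-/

set_option autoImplicit false

namespace Pool.ASM

open MeasureTheory Set Filter Topology
open Pool.GEN Pool.PKG Pool.SW Pool.ALT
open Pool.LA91 (FaQ sumQ HerQ her_sum her_fa aePG_fa aePG_sum)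
open Pool.MIC6
open Pool.V0F (LbU ChUQ AttUQ her_chU aePG_chU her_attU aePG_attU)

/-- **The velocity over the natural labels of a family of small rate**, all kinds and slopes. -/
theorem vbP (k : Kg) (Φ : (ℕ → ℝ) → Prop) : VbP k Φ := by
  refine ⟨Unit ⊕ Unit, inferInstance, sumQ (ChUQ : PropG 4 Unit) (AttUQ : PropG 4 Unit),
    aePG_sum (aePG_chU 4) (her_chU 4) (aePG_attU 4), her_sum (her_chU 4) (her_attU 4), ?_⟩
  intro h _ _ Sl hS _ hb hb0 hb1 y a _ _ _
  have h3 := hS.s3
  exact vbY_of (r := 2) (by norm_num) (fun l hl => by interval_cases l <;> rfl)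
    (show 1 < Sl 3 by linarith) hb0 hb1

/-- **Closed labels of the tubes** of the place 2, steep or static. -/
theorem huP {k : Kg} (hk : k = .stp ∨ k = .sta) (Φ : (ℕ → ℝ) → Prop) : HuP k Φ := by
  intro h _ _ Sl hS _
  have h3 := hS.s3
  refine ⟨3 / 2, Sl 3 + 1, le_rfl, by linarith, le_rfl, ?_⟩
  exact hur_ss (m := 4) (r := 2) (by norm_num) (by norm_num)
    (fun l hl => by interval_cases l <;> rfl) (show k = .stp ∨ k = .sta from hk) (by norm_num)
    (by linarith)

/-- **`u` thin of smaller slope.** -/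
theorem cbN_thin' : CbN .thin (fun Sl => Sl 2 < Sl 3) :=
  cbN_thin (fun _ h => h) (vbP _ _)

/-- **`u` steep.** -/
theorem cbN_stp : CbN .stp (fun _ => True) :=
  cbN_u (by intro h; cases h) (fun Sl hS => by have := hS.stp rfl; linarith) (huP (Or.inl rfl) _)
    (vbP _ _)

/-- **`u` static.** -/
theorem cbN_sta : CbN .sta (fun _ => True) :=
  cbN_u (by intro h; cases h) (fun Sl hS => by have := hS.sta rfl; linarith) (huP (Or.inr rfl) _)
    (vbP _ _)

end Pool.ASM
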