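import Pool.Agent.H92.ALT.Jn1
import Pool.Agent.H92.V0F.Vsd
import Pool.Agent.H73.D2.Tmz

/-!
# The end for a steep coordinate when a family of labels has small rate

`svNY_B`: `SvNY` under `LowE`, from `VbY`.
-/

set_option autoImplicit false

namespace Pool.ALT

open Finset Real MvPolynomial
open Pool.Agent.H49.Ent Pool.Agent.H32.Dense Pool.STK Pool.KA Pool.KSAT Pool.K2S Pool.PB Pool.S6C
  Pool.GEN Pool.RCD Pool.LA91 Pool.OWN68 Pool.PKG
open Pool.CHT Pool.CHX Pool.ISO Pool.D2R Pool.D2G30 Pool.V1E Pool.CR99 Pool.GRW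
open Pool.UNJ (ceI)
open Pool.GRD (LbP)
open Pool.PN18 (Fm2)
open Pool.V0F (LbU ChUQ AttUQ)

/-- The second labels of a family of natural labels are blind. -/
theorem blb_imp {m : ℕ} {S : PCl m} {Ψ Ψ' : Fml m} {c : ℕ → Fin m} {r₀ : ℕ} {κ : Fin m}
    {w v : ℝ} {K₁ Ku : ℕ} {p₁ p₂ x₀ : ℝ}
    (h : BlB S c r₀ κ w v K₁ Ku p₁ p₂ x₀ Ψ)
    (hi : ∀ (J : ℕ) (F : Fam m J) (A : F.Ω → Prop) (V : Type) (z : PtT F → V)
      (z' : LnT F → V) (G : V → MvPolynomial (Option (Fin m)) ℝ), Ψ' J F A V z z' G →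
      Ψ J F A V z z' G) : BlB S c r₀ κ w v K₁ Ku p₁ p₂ x₀ Ψ' := by
  intro η χ hη hχ
  refine Bas.mono 0 (h η χ hη hχ) ?_
  rintro J - F A h0 V z z' G g
  exact h0 V z z' G (hi J F A V z z' G g)

/-- **The end for a steep coordinate over a thin one, when a family of labels has small rate.** -/
theorem svNY_B {r : ℕ} {y a h hb β' : ℝ} {Sl : ℕ → ℝ} {κ : ℕ → Kg} {ι : Type}
    {Q : PropG (r + 2) ι} {W : PropW (r + 2)} {Dv : ℕ} (hκu : κ r = .thin)
    (hκt : κ (r + 1) = .stp) (hb0 : 0 < hb) (hb1 : hb ≤ 1)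
    (hβ : β' ≤ (1 - hb) * Sl (r + 1) * Real.log 2) (hs : 1 < Sl (r + 1)) (hy : 3 / 2 ≤ y)
    (hya : y + 1 / 2 ≤ a) (hsa : Sl (r + 1) + 1 ≤ a)
    (hys : Sl (r + 1) - 1 ≤ y * (Sl (r + 1) - Sl r))
    (has : Sl (r + 1) - 1 + (Sl r - 1) * y ≤ a) (hV : VbY r y a h hb Sl κ Q) :
    SvNY (r + 2) r y a h Sl κ (sumQ Q (sumQ (ChUQ : PropG (r + 2) Unit)
      (AttUQ : PropG (r + 2) Unit)))
      (fun e : PosR => AndW W (LowE (AdmL (r + 2)) β' Dv e)) := by
  classical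
  intro al hal K₀ hK₀ S₀ hS₀
  obtain ⟨Kr, Nr, Ar, Vr, hKr, hAV, hV⟩ := hV al hal K₀ hK₀ S₀ hS₀
  obtain ⟨D₀, hD₀, halo⟩ := alo_rec r S₀ hS₀
  have ha0 : 0 < a := by linarith
  refine ⟨max Kr a, Nr + 1, fun k => if k < Nr then Ar k else a,
    fun k => if k < Nr then Vr k else 0, hKr.trans (le_max_left _ _), fun k hk => ?_,
    fun S₂ hS₂ D hD => ?_⟩
  · have m1 := le_max_left Kr a
    have m2 := le_max_right Kr a
    by_cases hk' : k < Nr
    · simp only [hk', if_true]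
      obtain ⟨h4, h5, h6⟩ := hAV k hk'
      exact ⟨by linarith, h5, by linarith⟩
    · simp only [hk', if_false]
      exact ⟨by linarith, by linarith, by linarith⟩
  obtain ⟨D₁, hV⟩ := hV S₂ hS₂ D hD
  obtain ⟨Db, hDb⟩ : ∃ Db : ℕ, Db = max (max D D₀) (max D₁ Dv) := ⟨_, rfl⟩
  have hDb1 : D ≤ Db := by rw [hDb]; exact (le_max_left _ _).trans (le_max_left _ _)
  have hDb2 : D₀ ≤ Db := by rw [hDb]; exact (le_max_right _ _).trans (le_max_left _ _)
  have hDb3 : D₁ ≤ Db := by rw [hDb]; exact (le_max_left _ _).trans (le_max_right _ _)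
  have hDb4 : Dv ≤ Db := by rw [hDb]; exact (le_max_right _ _).trans (le_max_right _ _)
  have hDbK : D ≤ Db * max 1 Db := hDb1.trans (Nat.le_mul_of_pos_right _ (by simp))
  obtain ⟨Dr₀, hV⟩ := hV Db hDb1 hDb3
  refine ⟨max Dr₀ (Db * max 1 Db), hDbK.trans (le_max_right _ _), fun C hC => ?_⟩
  obtain ⟨Dw₀, hV⟩ := hV _ (le_max_left Dr₀ (Db * max 1 Db)) C hC
  refine ⟨max Dw₀ (Db * max 1 Db), hDbK.trans (le_max_right _ _), fun δ X₀ hδ hδ1 hX₀ => ?_⟩
  obtain ⟨y₁, lam, rr, gg, dt, ℓ₀, kf₀, X₁, hy₁, hlam, hrr, hgg, hdt, hℓ₀, hX₁, hly, hV⟩ :=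
    hV _ (le_max_left Dw₀ (Db * max 1 Db)) δ X₀ hδ hδ1 hX₀
  obtain ⟨b, hbd⟩ : ∃ b : ℝ, b = Sl (r + 1) := ⟨_, rfl⟩
  rw [← hbd] at hβ hs hly hsa hys has
  have hbp : 0 < b := by linarith
  have hby : 0 < b * y₁ := mul_pos hbp hy₁
  obtain ⟨X, hX⟩ : ∃ X : ℝ, X = min (min X₀ X₁) (min 1 (b * y₁)) := ⟨_, rfl⟩
  have hX0 : 0 < X := by rw [hX]; exact lt_min (lt_min hX₀ hX₁) (lt_min one_pos hby)
  have hXa : X ≤ X₀ := by rw [hX]; exact (min_le_left _ _).trans (min_le_left _ _)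
  have hXb : X ≤ X₁ := by rw [hX]; exact (min_le_left _ _).trans (min_le_right _ _)
  have hXc : X ≤ 1 := by rw [hX]; exact (min_le_right _ _).trans (min_le_left _ _)
  have hXd : X ≤ b * y₁ := by rw [hX]; exact (min_le_right _ _).trans (min_le_right _ _)
  obtain ⟨R, hR⟩ : ∃ R : ℝ, R = max (y + y₁) ((rr + gg) / b) := ⟨_, rfl⟩
  have hR1 : y + y₁ ≤ R := by rw [hR]; exact le_max_left _ _
  have hR2 : rr + gg ≤ b * R := by
    have : (rr + gg) / b ≤ R := by rw [hR]; exact le_max_right _ _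
    rw [div_le_iff₀ hbp] at this
    linarith
  have hR0 : 0 < R := by linarith
  obtain ⟨ℓ, h₁, ε₁, e₁, hℓ, hℓ₁, hh₁, hε₁, he₁, halo⟩ := halo Db hDb2 (b := b) (h := hb)
    (δ := dt) (lam := lam) (rr := rr) (gg := gg) (R := R) (K₁ := K₀) (ℓ₀ := ℓ₀) (X := X / 4)
    (g₂ := y₁) hbp hb0 hb1 hdt hlam hrr hgg hR0.le hK₀.le hℓ₀ (by linarith) hy₁ (by linarith)
  obtain ⟨kf, hkf⟩ : ∃ kf : ℝ, kf = max kf₀ b := ⟨_, rfl⟩
  obtain ⟨h₂, hh₂, hV⟩ := hV ℓ X kf hℓ hℓ₁ hX0 hXb (by rw [hkf]; exact le_max_left _ _)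
  have hC0 : 0 < C := by linarith
  refine ⟨⟨e₁, he₁⟩, kf, X, min h₁ (min h₂ (X / (20 * C))), by
    rw [← hbd, hkf]
    exact le_max_right _ _, hX0, hXa, by positivity, fun hh k₁ hhh hhl hk1 hk2 => ?_⟩
  have hhl1 := hhl.trans (min_le_left _ _)
  have hhl2 := hhl.trans ((min_le_right _ _).trans (min_le_left _ _))
  have hhl3 := hhl.trans ((min_le_right _ _).trans (min_le_right _ _))
  rw [le_div_iff₀ (by positivity)] at hhl3
  obtain ⟨K₁, Nv, Vv, ns, vs, hVv, hvs, hV⟩ := hV hh k₁ hhh hhl2 hk1 hk2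
  -- the windows
  obtain ⟨Va, hVa⟩ : ∃ Va : ℕ → ℝ, Va = fun k => if k < Nv then Vv k else if k = Nv then -y₁ else
    if k = Nv + 1 then 0 else if k = Nv + 2 then 1 else y := ⟨_, rfl⟩
  have v0 : ∀ k < Nv, Va k = Vv k := fun k hk => by rw [hVa]; simp only [hk, if_true]
  have v1 : Va Nv = -y₁ := by rw [hVa]; simp
  have v2 : Va (Nv + 1) = 0 := by rw [hVa]; simp
  have v3 : Va (Nv + 2) = 1 := by rw [hVa]; simp
  have v4 : Va (Nv + 3) = y := by rw [hVa]; simp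
  obtain ⟨K₂, hK₂⟩ : ∃ K₂ : ℝ, K₂ = max (max K₁ (R + 1)) (max a (K₀ + 1)) := ⟨_, rfl⟩
  have hKa : K₁ ≤ K₂ := by rw [hK₂]; exact (le_max_left _ _).trans (le_max_left _ _)
  have hKb : R + 1 ≤ K₂ := by rw [hK₂]; exact (le_max_right _ _).trans (le_max_left _ _)
  have hKc : a ≤ K₂ := by rw [hK₂]; exact (le_max_left _ _).trans (le_max_right _ _)
  have hKd : K₀ + 1 ≤ K₂ := by rw [hK₂]; exact (le_max_right _ _).trans (le_max_right _ _)
  have hVaK : ∀ k < Nv + 4, -K₂ ≤ Va k ∧ Va k ≤ K₂ := by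
    intro k hk
    rcases Nat.lt_or_ge k Nv with h1 | h1
    · rw [v0 k h1]
      obtain ⟨h2, h3⟩ := hVv k h1
      exact ⟨by linarith, by linarith⟩
    · obtain ⟨j, rfl⟩ : ∃ j, k = Nv + j := ⟨k - Nv, by omega⟩
      have hj : j < 4 := by omega
      interval_cases j
      · rw [Nat.add_zero, v1]
        exact ⟨by linarith, by linarith⟩
      · rw [v2]
        exact ⟨by linarith, by linarith⟩
      · rw [v3]
        exact ⟨by linarith, by linarith⟩
      · rw [v4]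
        exact ⟨by linarith, by linarith⟩
  refine ⟨K₂, Nv + 4, Va, ns, vs, hVaK, fun j hj => ?_, fun K' hK' => ?_⟩
  · obtain ⟨h2, h3⟩ := hvs j hj
    exact ⟨by linarith, h3⟩
  obtain ⟨ε₀, hε₀, hV⟩ := hV K' (hKa.trans hK')
  refine ⟨min ε₀ (min ε₁ (X / 16)), by positivity, fun ε hε hεε => ?_⟩
  have hεa := hεε.trans (min_le_left _ _)
  have hεb := hεε.trans ((min_le_right _ _).trans (min_le_left _ _))
  have hεc := hεε.trans ((min_le_right _ _).trans (min_le_right _ _))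
  intro S g₀ P θ P₂ θ₂ Eb e₂ c Pt rt L T G g hG hg hder hZ
  obtain ⟨-, i₀, ⟨a1, a2, a3, a4, a5, a6, a7⟩, hiD, φ, k₂, hφ0, hφ, hrt⟩ := hZ
  have hK'0 : K₀ ≤ K' := by linarith
  have hK'p : 0 < K' := by linarith
  by_cases hpos : 0 < L (r + 1) g g
  swap
  · obtain ⟨q₁, hq₁, H⟩ := rec_pos (by omega : r + 1 < r + 2) (hder (r + 1) (by omega)) hK₀ hK'0
      hpos
    exact ⟨fun _ => Sum.inr (Sum.inl ()), 0, fun _ => 0, fun _ => 1, fun j hj => by omega,
      fun k₀ _ => ⟨q₁, hq₁, fun q t x hq _ N A V N' V' R => (H hq R).elim⟩⟩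
  by_cases hposu : 0 < L r g g
  swap
  · obtain ⟨q₁, hq₁, H⟩ := rec_pos (by omega : r < r + 2) (hder r (by omega)) hK₀ hK'0 hposu
    exact ⟨fun _ => Sum.inr (Sum.inl ()), 0, fun _ => 0, fun _ => 1, fun j hj => by omega,
      fun k₀ _ => ⟨q₁, hq₁, fun q t x hq _ N A V N' V' R => (H hq R).elim⟩⟩
  have e1 : r + 2 - 1 = r + 1 := rfl
  have e2 : r + 2 - 2 = r := rfl
  rw [e1] at a1 a5 a6 a7
  rw [e2] at a2 a7
  obtain ⟨μ₁, d, hμ₁, hd, hmar⟩ := mar_lin (hder r (by omega)) (hder (r + 1) (by omega)) hpos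
    hposu a5 a6 a7
  obtain ⟨p, M, B₀, B₁, hB, hV⟩ := hV ε hε hεa S g₀ P θ P₂ θ₂ Eb e₂ c Pt rt L T G g hG hg hder
  refine ⟨fun j => if j < M then Sum.inl (p j) else if j = M then Sum.inr (Sum.inl ()) else
    Sum.inr (Sum.inr ()), M + 2, fun j => if j < M then B₀ j else 0,
    fun j => if j < M then B₁ j else 1, fun j hj => ?_, fun k₀ hk₀ => ?_⟩
  · by_cases h4 : j < M
    · simp only [h4, if_true]
      exact hB j h4
    · simp only [h4, if_false]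
      exact one_pos
  have hch : ChUQ (n := r + 2) () (k₀ M) S P θ c Pt rt L T κ G g := by
    have h4 := hk₀ M (by omega)
    simp only [lt_irrefl, if_false, if_true] at h4
    exact h4
  have hat : AttUQ (n := r + 2) () (k₀ (M + 1)) S P θ c Pt rt L T κ G g := by
    have h4 := hk₀ (M + 1) (by omega)
    simp only [show ¬ M + 1 < M by omega, show ¬ M + 1 = M by omega, if_false] at h4
    exact h4
  obtain ⟨μ, hμ⟩ : ∃ μ : ℝ, μ = min μ₁ ((1 / 2) ^ k₀ (M + 1)) := ⟨_, rfl⟩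
  have hμ0 : 0 < μ := by rw [hμ]; positivity
  have hμa : μ ≤ μ₁ := by rw [hμ]; exact min_le_left _ _
  have hμb : μ ≤ (1 / 2) ^ k₀ (M + 1) := by rw [hμ]; exact min_le_right _ _
  obtain ⟨q₁, hq₁, hV⟩ := hV k₀ (fun j hj => by
    have h4 := hk₀ j (by omega)
    simp only [hj, if_true] at h4
    exact h4) μ hμ0
  have hKK : 0 < K' + K₀ := by linarith
  have hb8 : 0 < 8 * b + 8 * rr := by linarith
  have hKR : 0 < K₀ + R + 1 := by linarith
  refine ⟨min q₁ (min (min (d / (K' + K₀)) ((1 / 2) ^ k₂ / (K₀ + R + 1))) (min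
    (μ / (8 * b + 8 * rr)) (min ((1 / 2) ^ k₀ (M + 1) / (K' + K₀)) μ))), by positivity,
    fun q t x hq hx N A V N' V' Rc hpr hwn N₁ N₂ vw hN1 hN12 hN2 hvw => ?_⟩
  have q1 := hq.trans_le (min_le_left _ _)
  have q2 := hq.trans_le ((min_le_right _ _).trans ((min_le_left _ _).trans (min_le_left _ _)))
  have q3 := hq.trans_le ((min_le_right _ _).trans ((min_le_left _ _).trans (min_le_right _ _)))
  have q4 := hq.trans_le ((min_le_right _ _).trans ((min_le_right _ _).trans (min_le_left _ _)))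
  have q5 := hq.trans_le ((min_le_right _ _).trans ((min_le_right _ _).trans
    ((min_le_right _ _).trans (min_le_left _ _))))
  have q6 := hq.trans_le ((min_le_right _ _).trans ((min_le_right _ _).trans
    ((min_le_right _ _).trans (min_le_right _ _))))
  rw [lt_div_iff₀ hKK] at q2 q5
  rw [lt_div_iff₀ hKR] at q3
  rw [lt_div_iff₀ hb8] at q4
  have hq0 := Rc.q0
  -- the record with the windows `Va`
  have Ra := Rc.mono (K₁ := K') (ε₁ := ε) (N₁ := N) (A₁ := A) (V₁ := V) (N₁' := Nv + 4)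
    (V₁' := Va) le_rfl le_rfl (fun k hk => ⟨k, hk, rfl, rfl⟩) (fun k hk => by
      obtain ⟨j, hj, e⟩ := hwn k hk
      exact ⟨j, hj, e.symm⟩)
  have hnear := Rc.near
  have hVaA : ∀ k < Nv + 4, |Va k| ≤ K' := fun k hk => by
    obtain ⟨h2, h3⟩ := hVaK k hk
    exact abs_le.2 ⟨by linarith, by linarith⟩
  have hwd : ∀ k < Nv + 4, |t + Va k * q - g| ≤ (K' + K₀) * q := by
    intro k hk
    have h1 : |Va k * q| ≤ K' * q := by
      rw [abs_mul, abs_of_pos hq0]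
      exact mul_le_mul_of_nonneg_right (hVaA k hk) hq0.le
    calc |t + Va k * q - g| = |(t - g) + Va k * q| := by congr 1; ring
      _ ≤ |t - g| + |Va k * q| := abs_add_le _ _
      _ ≤ K₀ * q + K' * q := add_le_add hnear h1
      _ = (K' + K₀) * q := by ring
  have hmw : ∀ k < Nv + 4, μ ≤ L (r + 1) (t + Va k * q) (t + Va k * q) ∧
      μ ≤ L r (t + Va k * q) (t + Va k * q) ∧ L r (t + Va k * q) (t + Va k * q) + μ ≤ 1 ∧
      i₀.2.1 + L (r + 1) (t + Va k * q) (t + Va k * q) + μ ≤ 1 ∧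
      i₀.2.2.2 + μ ≤ L (r + 1) (t + Va k * q) (t + Va k * q) ∧
      L (r + 1) (t + Va k * q) (t + Va k * q) + L r (t + Va k * q) (t + Va k * q) + μ ≤
        1 + i₀.2.2.2 := by
    intro k hk
    obtain ⟨b1, b2, b3, b4, b5, b6⟩ := hmar (t + Va k * q) ((hwd k hk).trans (by linarith))
    exact ⟨by linarith, by linarith, by linarith, by linarith, by linarith, by linarith⟩
  have hqX : X / 4 * q ≤ μ := by
    have : X * q ≤ 1 * q := mul_le_mul_of_nonneg_right hXc hq0.le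
    linarith
  have hXq0 : 0 < X / 4 * q := by positivity
  have hn0 : Nv < Nv + 4 := by omega
  have hn1 : Nv + 1 < Nv + 4 := by omega
  have hn2 : Nv + 2 < Nv + 4 := by omega
  have hn3 : Nv + 3 < Nv + 4 := by omega
  have hat' : ∀ k ≥ k₂, AltAt S ((range (r + 1)).image c) ((range r).image c) (c (r + 1))
      i₀.1.2.2 i₀.2.1 i₀.2.2.1 i₀.2.2.2 (fun w => L (r + 1) w w) g φ e₁ k := by
    intro k hk
    have h4 := hrt k hk
    rw [a1, a2] at h4
    exact h4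
  obtain ⟨S₁, hs₁, R₁, Ψ, w, p₁, p₂, eN, uN, pN, pa₁, pa₂, ea, ua, pa, H⟩ := halo hh hhh hhl1 Ra
    hbd.symm (hKb.trans hK') hεb hVaA (fun k hk => by
      obtain ⟨rd, -, h2⟩ := hch _ (Ra.memG.2 k hk)
      exact ⟨rd, h2⟩) (μ := μ) (fun k hk => by
      obtain ⟨rk, E, c1, c2, c3, c4, c5⟩ := hat _ (Ra.memG.2 k hk) ((hwd k hk).trans (by linarith))
      exact ⟨E, rk, c3, by
        have c4' : E + L (r + 1) (t + Va k * q) (t + Va k * q) ≤ 1 - (1 / 2) ^ k₀ (M + 1) := c4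
        linarith, (hmw k hk).2.2.1, c5⟩) (x := g) (e₀ := i₀.2.1) (ρ₀ := i₀.2.2.1)
    (π₀ := i₀.2.2.2) (φ := φ) (e := e₁) (Kf := i₀.1.2.2) (k₁ := k₂) hnear (hiD.trans hDb4)
    he₁ le_rfl (hφ.trans hβ) hat' (by linarith) (by exact_mod_cast a4) (by exact_mod_cast a3) hμ0
    (by linarith) (i := Nv) (j := Nv + 1) hn0 hn1 (by
      rw [v1, abs_neg, abs_of_pos hy₁]
      linarith) (by
      rw [v2, abs_zero]
      linarith) (by
      rw [v1, v2]
      linarith) (by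
      rw [v1]
      nlinarith) (hmw Nv hn0).1 (by linarith [(hmw (Nv + 1) hn1).2.2.2.1])
    (by linarith [(hmw Nv hn0).2.2.2.2.1]) (by linarith [(hmw Nv hn0).2.2.2.2.2])
    (by linarith [(hmw (Nv + 1) hn1).2.2.2.2.2])
  -- the velocity
  obtain ⟨S', Θ, hne, hs', hΘs, hΘn, hΘe, hVf⟩ := hV q t x q1 (fun j hj => by
      obtain ⟨h4, h5, h6, h7⟩ := hx j (by omega)
      simp only [hj, if_true] at h5 h6 h7
      exact ⟨h4, h5, h6, h7⟩) N A V (Nv + 4) Va S₁ hs₁ R₁ hVaA (fun k hk => by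
      obtain ⟨j, hj, h4, h5⟩ := hpr k (by omega)
      simp only [hk, if_true] at h4 h5
      exact ⟨j, hj, h4, h5⟩) (fun k hk => ⟨k, by omega, v0 k hk⟩) N₁ N₂ vw hN1 hN12 hN2 hvw
    Nv (Nv + 1) R y₁ (X / 4) i₀.2.1 i₀.2.2.2 Ψ w p₁ p₂ eN uN pN pa₁ pa₂ ea ua pa hn0 hn1 v1 v2
    (by linarith) H
  have hsub : SubC S' S := fun τ J F A h => hs₁ τ J F A (hs' τ J F A h)
  have R' := Rc.sub hne hsub
  refine ⟨S', XiF Θ (t + Va Nv * q), hsub, R', ⟨1 / (4 * 1), 8 * 1, by norm_num, by norm_num, ?_⟩,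
    fun κ' qf Pq h1 h2 h3 h4 => by
      obtain ⟨K₂, hK, hv⟩ := hVf κ' qf Pq h1 h2 h3 h4
      exact ⟨K₂, hK, hv.toN⟩⟩
  -- the slopes
  have hbl : ∀ k, k = Nv + 1 ∨ k = Nv + 2 ∨ k = Nv + 3 →
      BlB S' c r (c (r + 1)) (t + Va Nv * q) (t + Va k * q) D D
        (L (r + 1) (t + Va k * q) (t + Va k * q) - 2 * (hh * q))
        (L r (t + Va k * q) (t + Va k * q) - 2 * (hh * q))
        (L r (t + Va k * q) (t + Va k * q) - L (r + 1) (t + Va k * q) (t + Va k * q) +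
          X / 4 * q) (Fm2.lab Θ) := by
    intro k hk
    have hk4 : k < Nv + 4 := by omega
    have hVk : 0 ≤ Va k ∧ Va k ≤ y := by
      rcases hk with rfl | rfl | rfl
      · rw [v2]
        exact ⟨le_rfl, by linarith⟩
      · rw [v3]
        exact ⟨by norm_num, by linarith⟩
      · rw [v4]
        exact ⟨by linarith, le_rfl⟩
    obtain ⟨b1, b2, b3, b4, b5, b6⟩ := hmw k hk4
    have h1 := H.blb k hk4 (by rw [v1]; linarith) (abs_le.2 ⟨by linarith, by linarith⟩)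
      (by linarith) hqX (by linarith) (by linarith) (by linarith)
    have h2 := BlB.deg hDb1 hDb1 h1
    have h3 := blb_imp h2 (Ψ' := Fm2.lab Θ) (fun J F A V z z' G hG => by
      obtain ⟨C', G₁, cc, h⟩ := hG
      exact hΘn J F A V C' z z' G₁ G cc h)
    intro u1 u2 u3 u4
    exact (h3 u1 u2 u3 u4).sub hs'
  have hlog : 10 * (C * hh) < X := by nlinarith
  have hwv : t + Va Nv * q ≤ t := by
    rw [v1]
    have := mul_pos hy₁ hq0
    linarith
  have := slN_rec (Θ := Θ) (k₁ := k₁) (vw := vw) (Dw := max Dw₀ (Db * max 1 Db))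
    (Dr := max Dr₀ (Db * max 1 Db)) (Kd := Db * max 1 Db) R' hκu hκt hN1 hN2 (le_max_right _ _)
    (hDbK.trans (le_max_right _ _)) (le_max_right _ _) hy hya (by rw [← hbd]; exact hsa)
    (by rw [← hbd]; exact hys) (by rw [← hbd]; exact has) (by
      obtain ⟨j, hj, h4, h5⟩ := hpr Nr (by omega)
      simp only [lt_irrefl, if_false] at h4 h5
      exact ⟨j, hj, h4, h5⟩) (hKc.trans hK') hhh hC hlog hXc hε.le (by linarith) hwv
    (fun J F A V C z z' G₁ G₂ cc hG => by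
      have h1 := (hΘn J F A V C z z' G₁ G₂ cc hG).lb
      exact ⟨fun y => by
        have := h1.deg y
        rwa [max_self] at this, h1.dep, h1.cls⟩) hΘs (fun v hv => by
      rcases hv with rfl | rfl | rfl
      · have := hbl (Nv + 1) (Or.inl rfl)
        rwa [v2] at this
      · have := hbl (Nv + 2) (Or.inr (Or.inl rfl))
        rwa [v3] at this
      · have := hbl (Nv + 3) (Or.inr (Or.inr rfl))
        rwa [v4] at this) le_rfl (Bas.mono 0 hΘe fun J _ F A hA => by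
      obtain ⟨V, C', z, z', G₁, G₂, cc, h⟩ := hA
      exact ⟨A, fun _ h => h, by rw [one_mul], V, C', z, z', G₁, G₂, cc, h⟩)
  exact this

end Pool.ALT
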