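import Pool.Agent.H60.ALT.Nzw

/-!
# The slopes of the counted labels at one window

`bcw_win`: `BlC` at a window `v` with precisions `2 η` below the natural ones, from the data `AlW` of
the window and the linear numbers; `bbw_win`: `BlB`.
-/

set_option autoImplicit false

namespace Pool.ALT

open Finset Real MvPolynomial
open Pool.Agent.H49.Ent Pool.Agent.H32.Dense Pool.STK Pool.KA Pool.KSAT Pool.K2S Pool.PB Pool.S6C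
  Pool.GEN Pool.RCD Pool.LA91 Pool.OWN68
open Pool.UNJ (ceI)
open Pool.BFL (Pb)
open Pool.GRD (LbP)

variable {m : ℕ}

/-- **The slopes of the counted labels at the window** `v`, at the rounded samples. -/
theorem bcw_win {S : PCl m} {C₀ : ℝ} (htm : TmC S C₀)
    (hpos : ∀ (τ : ℝ) (J : ℕ) (F : Fam m J) (A : F.Ω → Prop), S.St τ J F A → 0 < Pe F.p A)
    {c : ℕ → Fin m} {r₀ : ℕ} {κ : Fin m} {D K₁ Kf : ℕ} (hD : D ≤ K₁)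
    {v pκ pu E Eu u : ℝ} (hv : AlW S c r₀ κ D v pκ pu E Eu u) {e₀ ρ₀ π₀ : ℝ} {s : ℝ → ℝ}
    {x φ e : ℝ} {k : ℕ} (h : AltAt S ((range (r₀ + 1)).image c) ((range r₀).image c) κ Kf e₀ ρ₀ π₀
      s x φ e k) {w o o' o₁ : ℚ} (h1 : x - (1 / 2) ^ k ≤ w) (h2 : w ≤ o) (h3 : o ≤ o')
    (h4 : o' ≤ o₁) (h5 : (o₁ : ℝ) ≤ x + (1 / 2) ^ k) (h6 : (o' : ℝ) ≤ 1) (s1 : s w ≤ s o)
    (s2 : s o ≤ s o') (s3 : s o' ≤ s o₁) (hwv : (w : ℝ) ≤ v) (hρ₀ : ρ₀ ≤ 1)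
    (he₀ : 0 ≤ e₀) {η : ℝ} (hη : 0 < η) (r0 : e₀ + pκ < 1) (hsa : s o ≤ pκ - 2 * η)
    (hsb : pκ ≤ s o') (hπ : π₀ ≤ pκ - 2 * η) (hp0 : 2 * η ≤ pκ) (hpu : 2 * η ≤ pu)
    (m1 : pκ + E + 2 * η < 1) (m2 : pu + Eu + 2 * η < 1) (m3 : u + η < 1) (m4 : pu + 3 * η ≤ 1)
    (m5 : pκ + pu - π₀ + η ≤ 1)
    (hgap : φ * (o' - o) + 4 * e * (1 / 2) ^ k + 7 * η < (pκ - s o) * Real.log 2) :
    Upg S ((range r₀).image c) (c r₀) K₁ v (u + η) (pu - 2 * η) (Eu + 4 * η) ∧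
    BlC S c r₀ κ w v K₁ K₁ (pκ - 2 * η) (pu - 2 * η) (pu - 2 * η - s o)
      (AlF ((range (r₀ + 1)).image c) ((range r₀).image c) κ Kf e₀ ρ₀ π₀ w (s w) (s o₁)
        (φ * (o₁ - w) + 2 * e * (1 / 2) ^ k)) := by
  have hE0 := hv.E0
  have hEu0 := hv.Eu0
  have hpE := hv.pE
  have hpEu := hv.pEu
  have hl2' : Real.log 2 < 1 := by
    have := Real.log_two_lt_d9
    linarith
  have U₁ := hv.upg hpos (K := K₁) hD (u' := u + η) (p := pκ - 2 * η) (e := E + 4 * η)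
    (by linarith) (by linarith) (by linarith) (by linarith) (by linarith) (by linarith)
  have U₂ := hv.upu hpos (K := K₁) hD (u' := u + η) (p := pu - 2 * η) (e := Eu + 4 * η)
    (by linarith) (by linarith) (by linarith) (by linarith) (by linarith) (by linarith)
  refine ⟨U₂, rec_blind htm hpos (x₀ := pu - 2 * η - s o) (σ := η) hv.ful U₁ U₂ h h1 h2 h3 h4 h5 h6
    s1 s2 s3 hwv hρ₀ he₀ (by linarith) (by linarith) (by linarith) hη hsa (by linarith) hπ le_rfl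
    ?_ (by linarith) (by linarith)⟩
  have k4 : η * Real.log 2 ≤ η := by nlinarith
  have e1 : φ * ((o' : ℝ) - o) + 4 * e * (1 / 2) ^ k + (s o' - (pκ - 2 * η) +
    (pu - (pu - 2 * η)) + 3 * η) * Real.log 2 = φ * ((o' : ℝ) - o) + 4 * e * (1 / 2) ^ k +
    (s o' - s o) * Real.log 2 - (pκ - s o) * Real.log 2 + 7 * (η * Real.log 2) := by ring
  rw [e1]
  linarith

/-- **The slopes of the counted labels at the window** `v`, at the exact samples. -/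
theorem bbw_win (r₀ D K₁ K₀ : ℕ) (hD : D ≤ K₁) : ∃ C : ℝ, 1 ≤ C ∧ ∀ {m : ℕ} {S : PCl m} {C₀ : ℝ}
    (_ : TmC S C₀)
    (_ : ∀ (τ : ℝ) (J : ℕ) (F : Fam m J) (A : F.Ω → Prop), S.St τ J F A → 0 < Pe F.p A)
    {c : ℕ → Fin m} {κ : Fin m} (_ : Set.InjOn c (Set.Iio (r₀ + 1)))
    {v pκ pu E Eu u : ℝ} (_ : AlW S c r₀ κ D v pκ pu E Eu u) {e₀ ρ₀ π₀ : ℝ} {s : ℝ → ℝ}
    {x φ e : ℝ} {k Kf : ℕ} (_ : Kf ≤ K₀)
    (_ : AltAt S ((range (r₀ + 1)).image c) ((range r₀).image c) κ Kf e₀ ρ₀ π₀ s x φ e k) {w o o' o₁ : ℚ} (_ : x - (1 / 2) ^ k ≤ w) (_ : w ≤ o) (_ : o ≤ o')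
    (_ : o' ≤ o₁) (_ : (o₁ : ℝ) ≤ x + (1 / 2) ^ k) (_ : (o' : ℝ) ≤ 1) (_ : s w ≤ s o)
    (_ : s o ≤ s o') (_ : s o' ≤ s o₁) (_ : 0 ≤ (w : ℝ)) (_ : (w : ℝ) ≤ v) (_ : ρ₀ ≤ 1)
    (_ : 0 ≤ e₀) {η : ℝ} (_ : 0 < η) (_ : e₀ + pκ < 1) (_ : s o ≤ pκ - 2 * η)
    (_ : pκ ≤ s o') (_ : π₀ ≤ pκ - 2 * η) (_ : 2 * η ≤ pκ) (_ : 2 * η ≤ pu)
    (_ : pκ + E + 2 * η < 1) (_ : pu + Eu + 2 * η + C * (2 * η) < 1) (_ : u + η + C * (2 * η) < 1)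
    (_ : pu + 3 * η ≤ 1) (_ : pκ + pu - π₀ + η ≤ 1)
    (_ : φ * (o' - o) + 4 * e * (1 / 2) ^ k + 7 * η < (pκ - s o) * Real.log 2),
    BlB S c r₀ κ w v K₁ K₁ (pκ - 2 * η) (pu - 2 * η) (C * (2 * η) + (pu - 2 * η - s o))
      (AlF ((range (r₀ + 1)).image c) ((range r₀).image c) κ Kf e₀ ρ₀ π₀ w (s w) (s o₁)
        (φ * (o₁ - w) + 2 * e * (1 / 2) ^ k)) := by
  obtain ⟨C, hC, hbb⟩ := blind_bt r₀ K₀ K₁
  refine ⟨C, hC, ?_⟩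
  intro m S C₀ htm hpos c κ hinj v pκ pu E Eu u hv e₀ ρ₀ π₀ s x φ e k Kf hKf h w o o' o₁ h1 h2 h3 h4 h5 h6
    s1 s2 s3 hw0 hwv hρ₀ he₀ η hη r0 hsa hsb hπ hp0 hpu m1 m2 m3 m4 m5 hgap
  have hCη : 0 < C * (2 * η) := by positivity
  obtain ⟨U₂, hbl⟩ := bcw_win htm hpos hD hv h h1 h2 h3 h4 h5 h6 s1 s2 s3 hwv hρ₀ he₀ hη r0 hsa
    hsb hπ hp0 hpu m1 (by linarith) (by linarith) m4 m5 hgap
  exact hbb htm hpos hinj hv.ful hv.fI0 U₂ hw0 hwv hv.wu (by linarith) (C * (2 * η)) hCη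
    (by
      have e1 : pu - (pu - 2 * η) = 2 * η := by ring
      rw [e1]) (by linarith) (by linarith) _ _ _
    (fun J F A V z z' G hG => ⟨fun y => ((AlF.hd J F A V z z' G hG).1 y).trans hKf,
      (AlF.hd J F A V z z' G hG).2⟩)
    (fun J F A B V z z' G hB hG => AlF.hs J F A B V z z' G hB hG) hbl

end Pool.ALT
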