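import Pool.Agent.H92.ALT.Sl2
import Pool.Agent.H73.D2.Tnh

/-!
# The slope hypothesis without the row label from a blind family

`nwc_BU`: `NwCU` from a blind family at the two balls. `slh_nzU`: `SlHU` for a family of labels.
-/

set_option autoImplicit false

namespace Pool.ALT

open Finset Real MvPolynomial
open Pool.Agent.H49.Ent Pool.Agent.H32.Dense Pool.STK Pool.KA Pool.KSAT Pool.K2S Pool.PB Pool.S6C
  Pool.GEN Pool.RCD Pool.LA91 Pool.OWN68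
open Pool.CHT Pool.CHX Pool.ISO Pool.D2R Pool.D2G30 Pool.V1E Pool.CR99
open Pool.UNJ (ceI)
open Pool.GRW (xr xr_near)
open Pool.BFL (Pb)
open Pool.GRD (LbP)
open Pool.PB.Trl (rt rt_mem t_rt)
open Pool.PN18 (Fm2)

variable {m : ℕ}

/-- **The data `NwCU` from a blind family.** -/
theorem nwc_BU {S : PCl m} (hpos : ∀ (τ : ℝ) (J : ℕ) (F : Fam m J)
      (A : F.Ω → Prop), S.St τ J F A → 0 < Pe F.p A) {c : ℕ → Fin m} {r D Dw Dr N N₂ : ℕ}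
    {R : ℕ → Prop} {C a Eb ε₀ η₀ χ mb : ℝ} {Pt : ℝ → ℝ → ℝ} {o : ℕ → ℝ} {lv be : ℕ → ℕ → ℝ}
    {κ : ℝ} (hc : Set.InjOn c (Set.Iio (r + 2))) (hN : 3 ≤ N₂) {Kd : ℕ} {w : ℝ}
    (hKw : Kd ≤ Dw) (hDr : D ≤ Dr) (hKr : Kd ≤ Dr) (hwo : w ≤ o 0)
    (h03 : o 0 ≤ o 3) (ho3 : o 3 ≤ 1) (hη₀ : 0 < η₀) (hκ : κ ≤ 1 / 4)
    (hmb : o 3 - o 0 ≤ mb) (hχ : 0 ≤ χ)
    (hl0 : 0 ≤ lv 0 (r + 1)) (hl0r : 0 ≤ lv 0 r)
    {Ψ : ∀ (J : ℕ) (F : Fam m J), (F.Ω → Prop) → ∀ V : Type, (PtT F → V) →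
      (LnT F → V) → (V → MvPolynomial (Option (Fin m)) ℝ) → Prop}
    (hΨd : ∀ (J : ℕ) (F : Fam m J) (A : F.Ω → Prop) (V : Type) (z : PtT F → V) (z' : LnT F → V)
      (G : V → MvPolynomial (Option (Fin m)) ℝ), Ψ J F A V z z' G →
      (∀ y, (G y).totalDegree ≤ Kd) ∧ (∀ y, DpI ((range (r + 1)).image c) (G y)) ∧
      ∀ ω, A ω → z (ptr F J ω) = z' (slam F ⌊w * J⌋₊ ω))
    {p q x : ℕ → ℝ}
    (hB0 : BlB S c r (c (r + 1)) w (o 0) D D (p 0) (q 0) (x 0) Ψ)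
    (hB3 : BlB S c r (c (r + 1)) w (o 3) D D (p 3) (q 3) (x 3) Ψ)
    (hp : ∀ k, p k < lv k (r + 1) - η₀) (hq : ∀ k, q k < lv k r - η₀)
    (hx0 : x 0 + η₀ < lv 0 r - lv 0 (r + 1) + χ)
    (hx3 : x 3 + 2 * η₀ < lv 3 r - lv 0 (r + 1) - mb + χ) :
    Bas S (fun J F B => ∀ (V : Type) (z : PtT F → V) (z' : LnT F → V)
      (Gp : V → MvPolynomial (Option (Fin m)) ℝ), Ψ J F B V z z' Gp →
      ∀ (b : ℕ → ℕ → ℝ) (zz : ℕ → ℕ → ℕ) (gc gT g₀ : ℕ → ℕ → ℕ)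
      (G : ℕ → PtT F → ℕ → MvPolynomial (Option (Fin m)) ℝ)
      (H : ℕ → LnT F → ℕ → MvPolynomial (Option (Fin m)) ℝ)
      (T : ℕ → PtT F → ℕ → MvPolynomial (Option (Fin m)) ℝ)
      (TH : ℕ → LnT F → ℕ → MvPolynomial (Option (Fin m)) ℝ)
      (Gt : ℕ → PtT F → MvPolynomial (Option (Fin m)) ℝ)
      (Ht : ℕ → LnT F → MvPolynomial (Option (Fin m)) ℝ),
      WG c (r + 1) D Dr N N₂ R C a Eb ε₀ η₀ Pt o lv be F b κ zz B gc gT g₀ G H T TH Gt Ht →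
      ∃ B₂ : F.Ω → Prop, Sub B₂ B ∧ Pe F.p B ≤ 8 * Pe F.p B₂ ∧
        NwCU F c r Dw ⌊mb * J⌋₊ (⌊o 3 * J⌋₊ - ⌊o 0 * J⌋₊) ⌊χ * J⌋₊ ⌊lv 0 r * J⌋₊
          ⌊lv 0 (r + 1) * J⌋₊ (fun k => ⌊o (fr4 k) * J⌋₊) (fun k => g₀ (fr4 k)) B₂
          (fun k => G (fr4 k)) (Ht 0) (fun L => Gp (wz z' ⌊w * J⌋₊ ⌊o 0 * J⌋₊ L))
          (fun y => Gp (z y))) := by
  classical
  have big : ∀ {x y : ℝ}, 0 < x → ∃ J₀ : ℕ, ∀ J : ℕ, J₀ ≤ J → y ≤ x * J := by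
    intro x y hx
    refine ⟨⌈y / x⌉₊, fun J hJ => ?_⟩
    have h1 : y / x ≤ J := (Nat.le_ceil _).trans (by exact_mod_cast hJ)
    rw [div_le_iff₀ hx] at h1
    linarith
  have hC1 : ∃ χ' : ℝ, 0 < χ' ∧ (∀ k, k = 0 ∨ k = 3 → p k + χ' ≤ lv k (r + 1) - η₀ ∧
      q k + χ' ≤ lv k r - η₀) := by
    obtain ⟨a1, ha1⟩ : ∃ t, t = lv 0 (r + 1) - η₀ - p 0 := ⟨_, rfl⟩
    obtain ⟨a3, ha3⟩ : ∃ t, t = lv 3 (r + 1) - η₀ - p 3 := ⟨_, rfl⟩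
    obtain ⟨b1, hb1⟩ : ∃ t, t = lv 0 r - η₀ - q 0 := ⟨_, rfl⟩
    obtain ⟨b3, hb3⟩ : ∃ t, t = lv 3 r - η₀ - q 3 := ⟨_, rfl⟩
    refine ⟨min (min a1 a3) (min b1 b3), lt_min (lt_min ?_ ?_) (lt_min ?_ ?_), ?_⟩
    · linarith [hp 0]
    · linarith [hp 3]
    · linarith [hq 0]
    · linarith [hq 3]
    · have i1 : min (min a1 a3) (min b1 b3) ≤ a1 := (min_le_left _ _).trans (min_le_left _ _)
      have i3 : min (min a1 a3) (min b1 b3) ≤ a3 := (min_le_left _ _).trans (min_le_right _ _)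
      have j1 : min (min a1 a3) (min b1 b3) ≤ b1 := (min_le_right _ _).trans (min_le_left _ _)
      have j3 : min (min a1 a3) (min b1 b3) ≤ b3 := (min_le_right _ _).trans (min_le_right _ _)
      rintro k (rfl | rfl)
      · constructor <;> linarith
      · constructor <;> linarith
  obtain ⟨χ', hχ', hpq⟩ := hC1
  obtain ⟨J₁, hJ₁⟩ := big (x := lv 0 r - lv 0 (r + 1) + χ - (x 0 + η₀)) (y := 2) (by linarith)
  obtain ⟨J₂, hJ₂⟩ := big (x := lv 3 r - lv 0 (r + 1) - mb + χ - (x 3 + 2 * η₀)) (y := 1)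
    (by linarith)
  have hcr : Set.InjOn c (Set.Iio (r + 1)) := hc.mono fun y hy => by
    rw [Set.mem_Iio] at hy ⊢
    omega
  refine Bas.mono (J₁ + J₂) ((hB0 (1 / 8) χ' (by norm_num) hχ').and
    ((hB3 (1 / 8) χ' (by norm_num) hχ').and (pos_bas hpos))) ?_
  rintro J hJ F B ⟨K0, K3, hB⟩ V z z' Gp hΨ b zz gc gT g₀ G H T TH Gt Ht W
  have j1 := hJ₁ J (by omega)
  have j2 := hJ₂ J (by omega)
  have hJ0 : (0 : ℝ) ≤ J := Nat.cast_nonneg J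
  have mulJ : ∀ {x y : ℝ}, x ≤ y → x * J ≤ y * J := fun h => mul_le_mul_of_nonneg_right h hJ0
  obtain ⟨hGd, hGp, hGc⟩ := hΨd J F B V z z' Gp hΨ
  -- the charts
  have hev : ∀ k ≤ N₂, ChOK F c (r + 2) (fun _ => D) ⌊o k * J⌋₊ ⌊o k * J⌋₊
      ⌊(Eb + η₀ + η₀) * J⌋₊ (g₀ k) B (G k) (H k) ∧ Clsd F (r + 2) ⌊o k * J⌋₊ B (G k) (H k) ∧
      RelvF F c (r + 1) ⌊o k * J⌋₊ ⌊o k * J⌋₊ (g₀ k) Dr ⌊η₀ * J⌋₊ κ B (G k) ∧
      ∀ l ≤ r + 1, (lv k l - η₀) * J ≤ g₀ k l := fun k hk =>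
    ⟨(W.wb.ev k hk).ball, (W.wb.ev k hk).cls, (W.wb.ev k hk).relb,
      fun l hl => (W.wb.sds k hk l hl).1⟩
  have hsl : ∀ k, k = 0 ∨ k = 3 → ∀ (y : ℝ) (_ : y = x k),
      (∀ (P₁ : ℕ) (V₁ : Type) (z₁ : PtT F → V₁) (z₁' : LnT F → V₁)
      (G₁ : V₁ → MvPolynomial (Option (Fin m)) ℝ),
      LbP F ((range (r + 1)).image c) (c (r + 1)) D J ⌊o k * J⌋₊ P₁ B z₁ z₁' G₁ →
      (p k + χ') * J ≤ P₁ → ∀ (P₂ : ℕ) (V₂ : Type) (z₂ : PtT F → V₂) (z₂' : LnT F → V₂)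
      (H : V₂ → MvPolynomial (Option (Fin m)) ℝ),
      LbP F ((range r).image c) (c r) D J ⌊o k * J⌋₊ P₂ B z₂ z₂' H → (q k + χ') * J ≤ P₂ →
      Pb (Pool.Agent.H49.Ent.cond F.p B True) (fun ω => (2 : ℝ) ^ (x k * J) <
        |eval (bt F ω) (pderiv (some (c r)) (G₁ (z₁' (slam F ⌊o k * J⌋₊ ω)) -
          Gp (z' (slam F ⌊w * J⌋₊ ω))))|) ≤ 1 / 8) →
      Pb (Pool.Agent.H49.Ent.cond F.p B True) (fun ω => (2 : ℝ) ^ (x k * J) <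
        |eval (bt F ω) (pderiv (some (c r)) (H k (slam F ⌊o k * J⌋₊ ω) (r + 1) -
          Gp (z' (slam F ⌊w * J⌋₊ ω))))|) ≤ 1 / 8 := by
    intro k hk _ _ h1
    have hk2 : k ≤ N₂ := by rcases hk with h | h <;> omega
    obtain ⟨c1, c2, -, c4⟩ := hev k hk2
    obtain ⟨V₁, z₁, z₁', G₁, d1, d2⟩ := lbp_ch c1 c2 (i := r + 1) (by omega)
    obtain ⟨V₂, z₂, z₂', G₂, e1, e2⟩ := lbp_ch c1 c2 (i := r) (by omega)
    have h2 := h1 (g₀ k (r + 1)) V₁ z₁ z₁' G₁ d1 ((mulJ (hpq k hk).1).trans (c4 _ le_rfl))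
      (g₀ k r) V₂ z₂ z₂' G₂ e1 ((mulJ (hpq k hk).2).trans (c4 _ (by omega)))
    simp only [d2] at h2
    exact h2
  have s0 := hsl 0 (Or.inl rfl) _ rfl (K0 V z z' Gp hΨ)
  have s3 := hsl 3 (Or.inr rfl) _ rfl (K3 V z z' Gp hΨ)
  obtain ⟨bad, hbad⟩ : ∃ bad : ℕ → F.Ω → Prop, bad = fun k ω => (2 : ℝ) ^ (x k * J) <
        |eval (bt F ω) (pderiv (some (c r)) (H k (slam F ⌊o k * J⌋₊ ω) (r + 1) -
          Gp (z' (slam F ⌊w * J⌋₊ ω))))| := ⟨_, rfl⟩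
  have t := pe_three F.isLaw.nonneg hB (bad 0) (bad 0) (bad 3) (η := 1 / 8)
    (by rw [hbad]; exact s0) (by rw [hbad]; exact s0) (by rw [hbad]; exact s3)
  obtain ⟨B₁, hB₁⟩ : ∃ B₁ : F.Ω → Prop, B₁ = fun ω => B ω ∧ ¬ (bad 0 ω ∨ bad 0 ω ∨ bad 3 ω) :=
    ⟨_, rfl⟩
  rw [← hB₁] at t
  have hB₁B : Sub B₁ B := fun ω hω => by
    rw [hB₁] at hω
    exact hω.1
  have hgood : ∀ ω, B₁ ω → ∀ k, k = 0 ∨ k = 3 →
      |eval (bt F ω) (pderiv (some (c r)) (H k (slam F ⌊o k * J⌋₊ ω) (r + 1) -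
          Gp (z' (slam F ⌊w * J⌋₊ ω))))| ≤ (2 : ℝ) ^ (x k * J) := by
    intro ω hω k hk
    rw [hB₁] at hω
    have h1 : ¬ bad k ω := by
      rcases hk with rfl | rfl
      · exact fun h => hω.2 (Or.inl h)
      · exact fun h => hω.2 (Or.inr (Or.inr h))
    rw [hbad] at h1
    exact not_lt.1 h1
  -- the boxes
  have hbox : ∀ k, k = 0 ∨ k = 3 → ∀ B' : F.Ω → Prop, Sub B' B₁ → κ * Pe F.p B ≤ Pe F.p B' →
      ∃ B'' : F.Ω → Prop, Sub B'' B' ∧ Pe F.p B' / 2 ≤ Pe F.p B'' ∧ ∀ ω, B'' ω →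
        ∀ bb, NBx c (G k (ptr F J ω)) (g₀ k) ⌊o k * J⌋₊ (F.t ω) (r + 1) bb →
        |eval bb (pderiv (some (c r)) (G k (ptr F J ω) (r + 1))) -
          eval bb (pderiv (some (c r)) (Gp (z (ptr F J ω))))| ≤
          2 ^ ⌊η₀ * J⌋₊ * 2 ^ (x k * J) := by
    intro k hk B' hB' hκB
    have hk2 : k ≤ N₂ := by rcases hk with h | h <;> omega
    have hok : o k ≤ 1 := by rcases hk with rfl | rfl <;> linarith
    have hwk : w ≤ o k := by rcases hk with rfl | rfl <;> linarith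
    obtain ⟨c1, c2, c3, -⟩ := hev k hk2
    obtain ⟨f1, f2⟩ := floorw hwk hok J
    have hdeg : ∀ P Q : MvPolynomial (Option (Fin m)) ℝ, P.totalDegree ≤ D →
        Q.totalDegree ≤ Kd → (pderiv (some (c r)) (P - Q)).totalDegree ≤ Dr := fun P Q h1 h2 =>
      (pd_dg _ _).trans ((totalDegree_sub _ _).trans (max_le (h1.trans hDr) (h2.trans hKr)))
    have hdep : ∀ P Q : MvPolynomial (Option (Fin m)) ℝ, DepC c (r + 1) P →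
        DpI ((range (r + 1)).image c) Q → DepC c (r + 1) (pderiv (some (c r)) (P - Q)) := by
      intro P Q h1 h2
      have h3 : DepC c (r + 1) (P - Q) := fun b b' h4 h5 => by
        rw [map_sub, map_sub, h1 b b' h4 h5, h2 b b' h4 fun i hi => by
          obtain ⟨l, hl, rfl⟩ := mem_image.1 hi
          exact h5 l (mem_range.1 hl)]
      exact h3.pderiv _
    have heq : ∀ ω, B' ω → G k (ptr F J ω) (r + 1) - Gp (z (ptr F J ω)) =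
        H k (slam F ⌊o k * J⌋₊ ω) (r + 1) - Gp (z' (slam F ⌊w * J⌋₊ ω)) := by
      intro ω hω
      rw [c2 ω (hB₁B ω (hB' ω hω)) (r + 1) (by omega), hGc ω (hB₁B ω (hB' ω hω))]
    obtain ⟨B'', d1, d2, d3⟩ := c3 B' (fun ω hω => hB₁B ω (hB' ω hω)) hκB
      (fun y => pderiv (some (c r)) (G k y (r + 1) - Gp (z y)))
      (fun s => pderiv (some (c r)) (H k s (r + 1) - Gp (wz z' ⌊w * J⌋₊ ⌊o k * J⌋₊ s)))
      (2 ^ (x k * J)) (fun y => hdeg _ _ (c1.degG y _) (hGd _))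
      (fun s => hdeg _ _ (c1.degH s _) (hGd _)) (fun y => hdep _ _ (c1.depG y _) (hGp _))
      (fun s => hdep _ _ (c1.depH s _) (hGp _)) (Real.rpow_pos_of_pos (by norm_num) _)
      (fun ω hω => by
        rw [heq ω hω]
        exact hgood ω (hB' ω hω) k hk)
      (fun ω hω bb _ => by
        rw [heq ω hω, wz_slam z' f1 f2, sub_self, abs_zero]
        exact (Real.rpow_pos_of_pos (by norm_num) _).le)
    refine ⟨B'', d1, d2, fun ω hω bb hb => ?_⟩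
    have := d3 ω hω bb hb
    rw [map_sub, map_sub] at this
    exact this
  have t1 : Pe F.p B ≤ 8 / 5 * Pe F.p B₁ := by linarith
  obtain ⟨B₂, d1, d2, d3⟩ := hbox 0 (Or.inl rfl) B₁ (fun ω h => h) (by nlinarith)
  obtain ⟨B₃, e1, e2, e3⟩ := hbox 3 (Or.inr rfl) B₂ d1 (by nlinarith)
  refine ⟨B₃, fun ω hω => hB₁B ω (d1 ω (e1 ω hω)), by linarith, ?_⟩
  have hf1 : fr4 1 = 0 := rfl
  have hf2 : fr4 2 = 3 := rfl
  obtain ⟨f1, f2⟩ := floorw hwo (h03.trans ho3) J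
  have hGpC : ∀ v, DepC c (r + 1) (Gp v) := fun v b b' h4 h5 => hGp v b b' h4 fun i hi => by
    obtain ⟨l, hl, rfl⟩ := mem_image.1 hi
    exact h5 l (mem_range.1 hl)
  have kχ := flb (mul_nonneg hχ hJ0)
  have k0r := flb (mul_nonneg hl0r hJ0)
  have k0 := flb (mul_nonneg hl0 hJ0)
  have kη := flb (mul_nonneg hη₀.le hJ0)
  have hmb0 : 0 ≤ mb := by linarith
  have kmb := flb (mul_nonneg hmb0 hJ0)
  refine ⟨fun L => (hGd _).trans hKw, fun y => (hGd _).trans hKw, fun L => hGpC _,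
    fun y => hGpC _, fun ω hω => ?_, fun ω hω bb hb => ?_, fun ω hω bb hb => ?_⟩
  · have hBω := hB₁B ω (d1 ω (e1 ω hω))
    show Gp (z (ptr F J ω)) = Gp (wz z' ⌊w * J⌋₊ ⌊o 0 * J⌋₊ (slam F ⌊o (fr4 1) * J⌋₊ ω))
    rw [hf1, wz_slam z' f1 f2, hGc ω hBω]
  · refine (d3 ω (e1 ω hω) bb hb).trans ?_
    rw [← Real.rpow_natCast, ← Real.rpow_add (by norm_num)]
    refine rp_le ?_
    push_cast
    nlinarith [kχ.2, k0r.2, k0.1, kη.1]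
  · refine (e3 ω hω bb hb).trans ?_
    rw [← Real.rpow_natCast, ← Real.rpow_add (by norm_num)]
    refine rp_le ?_
    have hg := (hev 3 hN).2.2.2 r (by omega)
    show _ ≤ ((g₀ 3 r + ⌊χ * J⌋₊ : ℕ) : ℝ)
    push_cast
    nlinarith [kχ.2, k0.1, kη.1, kmb.1]

/-- **The slope hypothesis without the row label** from a family of labels closed at the window
`w ≤ o 0`. -/
theorem slh_nzU {S : PCl m} (hpos : ∀ (τ : ℝ) (J : ℕ) (F : Fam m J)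
      (A : F.Ω → Prop), S.St τ J F A → 0 < Pe F.p A) {c : ℕ → Fin m} {r D Dw Dr N N₂ : ℕ}
    {R : ℕ → Prop} {C a Eb ε₀ η₀ χ mb : ℝ} {Pt : ℝ → ℝ → ℝ} {o : ℕ → ℝ} {lv be : ℕ → ℕ → ℝ}
    (hc : Set.InjOn c (Set.Iio (r + 2))) (hN : 3 ≤ N₂) {Kd : ℕ} {w : ℝ}
    (hKw : Kd ≤ Dw) (hDr : D ≤ Dr) (hKr : Kd ≤ Dr) (hwo : w ≤ o 0)
    (h03 : o 0 ≤ o 3) (ho3 : o 3 ≤ 1) (hη₀ : 0 < η₀)
    (hmb : o 3 - o 0 ≤ mb) (hχ : 0 ≤ χ)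
    (hl0 : 0 ≤ lv 0 (r + 1)) (hl0r : 0 ≤ lv 0 r) {Θ : Fm2 m}
    (hΘd : ∀ (J : ℕ) (F : Fam m J) (A : F.Ω → Prop) (V C : Type) (z : PtT F → V) (z' : LnT F → V)
      (G₁ G₂ : V → MvPolynomial (Option (Fin m)) ℝ) (cc : LnT F → C), Θ J F A V C z z' G₁ G₂ cc →
      (∀ y, (G₂ y).totalDegree ≤ Kd) ∧ (∀ y, DpI ((range (r + 1)).image c) (G₂ y)) ∧
      ∀ ω, A ω → z (ptr F J ω) = z' (slam F ⌊w * J⌋₊ ω))
    (hΘs : ∀ (J : ℕ) (F : Fam m J) (A B : F.Ω → Prop) (V C : Type) (z : PtT F → V)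
      (z' : LnT F → V) (G₁ G₂ : V → MvPolynomial (Option (Fin m)) ℝ) (cc : LnT F → C), Sub B A →
      Θ J F A V C z z' G₁ G₂ cc → Θ J F B V C z z' G₁ G₂ cc)
    {p q x : ℕ → ℝ}
    (hB0 : BlB S c r (c (r + 1)) w (o 0) D D (p 0) (q 0) (x 0) (Fm2.lab Θ))
    (hB3 : BlB S c r (c (r + 1)) w (o 3) D D (p 3) (q 3) (x 3) (Fm2.lab Θ))
    (hp : ∀ k, p k < lv k (r + 1) - η₀) (hq : ∀ k, q k < lv k r - η₀)
    (hx0 : x 0 + η₀ < lv 0 r - lv 0 (r + 1) + χ)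
    (hx3 : x 3 + 2 * η₀ < lv 3 r - lv 0 (r + 1) - mb + χ)
    {K₄ : ℝ} (hK₄ : 1 ≤ K₄) (hex : Bas S (fun J F A => ∃ A₁ : F.Ω → Prop, Sub A₁ A ∧
      Pe F.p A ≤ K₄ * Pe F.p A₁ ∧ ∃ (V C : Type) (z : PtT F → V) (z' : LnT F → V)
        (G₁ G₂ : V → MvPolynomial (Option (Fin m)) ℝ) (cc : LnT F → C),
        Θ J F A₁ V C z z' G₁ G₂ cc)) :
    SlHU S c r D Dw Dr N N₂ R C a Eb ε₀ η₀ χ mb Pt o lv be (1 / (4 * K₄)) (8 * K₄) (XiF Θ w) := by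
  have hK0 : 0 < K₄ := by linarith
  have hnw := nwc_BU (Ψ := Fm2.lab Θ) (N := N) (C := C) (a := a) (Pt := Pt) (ε₀ := ε₀) (Eb := Eb)
    (Dr := Dr) (be := be) (κ := 1 / 4) (R := R) hpos hc
    hN hKw hDr hKr hwo h03 ho3 hη₀ le_rfl hmb hχ hl0 hl0r
    (fun J F A V z z' G hG => by
      obtain ⟨C, G₁, cc, hG⟩ := hG
      exact hΘd J F A V C z z' G₁ G cc hG) hB0 hB3 hp hq hx0 hx3
  refine Bas.mono 0 (hex.and (Pool.V1E.bas_big hnw K₄)) ?_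
  rintro J - F B ⟨⟨A₁, hA₁, hPA, V, C', z, z', G₁, G₂, cc, hΘ⟩, w2⟩ b zz gc gT g₀ Gc H T TH Gt Ht W
  have W' := W.res (κ₁ := 1 / K₄) (κ₂ := 1 / 4) hA₁ (by
    rw [one_div_mul_eq_div, div_le_iff₀ hK0, mul_comm]
    exact hPA) (by norm_num) (by
    rw [← one_div_mul_one_div])
  obtain ⟨B₂, hB₂, hPB, hN⟩ := w2 A₁ hA₁ hPA V z z' G₂ ⟨C', G₁, cc, hΘ⟩ b zz gc gT g₀ Gc H T TH Gt
    Ht W'
  refine ⟨B₂, _, _, fun ω hω => hA₁ ω (hB₂ ω hω), ?_, hN, V, C', z, z', G₁, G₂, cc,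
    hΘs J F A₁ B₂ V C' z z' G₁ G₂ cc hB₂ hΘ, fun ω hω => ?_⟩
  · calc Pe F.p B ≤ K₄ * Pe F.p A₁ := hPA
      _ ≤ K₄ * (8 * Pe F.p B₂) := mul_le_mul_of_nonneg_left hPB hK0.le
      _ = 8 * K₄ * Pe F.p B₂ := by ring
  · show G₂ (z (ptr F J ω)) = _
    rw [(hΘd J F A₁ V C' z z' G₁ G₂ cc hΘ).2.2 ω (hB₂ ω hω)]

end Pool.ALT
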